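import Mathlib
set_option autoImplicit false

/-!
# Project LS: the paraboloid and frequencies in a `Λ(q)` set, statements of the parts

`E f (y,t) = ∫_{[-1,1]^m} f(v) exp(2πi(v·y + |v|²t)) dv` for functions `f` of period `2` whose
frequencies `k ∈ ℤ^m` lie in a `Λ(q)` set. Mathlib only.
-/

namespace Pool.Agent.W786.Ls

open MeasureTheory Set Complex
open scoped ENNReal NNReal

/-- the cube `[-1,1)^m` -/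
def CB (m : ℕ) : Set (Fin m → ℝ) := Set.pi univ fun _ => Ico (-1 : ℝ) 1

/-- the characters `exp(π i k·v)` of period `2` -/
noncomputable def ek {m : ℕ} (k : Fin m → ℤ) (v : Fin m → ℝ) : ℂ :=
  cexp (Real.pi * I * ((∑ j, (k j : ℝ) * v j : ℝ) : ℂ))

/-- trigonometric polynomials -/
noncomputable def trig {m : ℕ} (S : Finset (Fin m → ℤ)) (c : (Fin m → ℤ) → ℂ)
    (v : Fin m → ℝ) : ℂ := ∑ k ∈ S, c k * ek k v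

/-- the quadratic exponential -/
noncomputable def qe (y t v : ℝ) : ℂ := cexp (2 * Real.pi * I * ((v * y + v ^ 2 * t : ℝ) : ℂ))

/-- the quadratic exponential in several variables -/
noncomputable def em {m : ℕ} (y : Fin m → ℝ) (t : ℝ) (v : Fin m → ℝ) : ℂ := ∏ i, qe (y i) t (v i)

/-- the `ℓ²` norm of the coefficients -/
noncomputable def l2 {m : ℕ} (S : Finset (Fin m → ℤ)) (c : (Fin m → ℤ) → ℂ) : ℝ≥0∞ :=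
  (∑ k ∈ S, ‖c k‖ₑ ^ 2) ^ (1 / 2 : ℝ)

/-- the `Λ(q)` property with loss `N^δ` for spectra of diameter at most `N` (maximum norm) -/
def Lam {m : ℕ} (Λ : Set (Fin m → ℤ)) (q δ : ℝ) (K : ℝ≥0) : Prop :=
  ∀ (N : ℝ) (S : Finset (Fin m → ℤ)) (c : (Fin m → ℤ) → ℂ), 1 ≤ N → (∀ k ∈ S, k ∈ Λ) →
    (∀ k ∈ S, ∀ l ∈ S, ‖k - l‖ ≤ N) →
    ∫⁻ v in CB m, ‖trig S c v‖ₑ ^ q ≤ (K * ENNReal.ofReal (N ^ δ) * l2 S c) ^ q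

/-- `τ = √(1 + 4t²)` -/
noncomputable def tau (t : ℝ) : ℝ := Real.sqrt (1 + 4 * t ^ 2)

/-- `exp(-π z²/(1 - 2it))`, of absolute value `exp(-π z²/τ²)` -/
noncomputable def Phi (t z : ℝ) : ℂ := cexp (-((Real.pi * z ^ 2 : ℝ) : ℂ) / (1 - 2 * t * I))

/-- the Gaussian weighted operator, weight centred at `a` -/
noncomputable def GG {m : ℕ} (t : ℝ) (a : Fin m → ℝ) (S : Finset (Fin m → ℤ))
    (c : (Fin m → ℤ) → ℂ) (y : Fin m → ℝ) : ℂ :=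
  ∫ v : Fin m → ℝ, ((∏ j, Real.exp (-Real.pi * (v j - a j) ^ 2) : ℝ) : ℂ) * trig S c v * em y t v

/-- the sums of translates of the Gaussian -/
noncomputable def FF {m : ℕ} (t : ℝ) (S : Finset (Fin m → ℤ)) (c : (Fin m → ℤ) → ℂ)
    (y : Fin m → ℝ) : ℂ := ∑ k ∈ S, c k * ∏ j, Phi t (y j + (k j : ℝ) / 2)

/-- **GAU1** the Gaussian weighted operator is a sum of translates of a Gaussian -/
def Gau1Stm : Prop := ∀ (m : ℕ) (t : ℝ) (a y : Fin m → ℝ) (S : Finset (Fin m → ℤ))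
    (c : (Fin m → ℤ) → ℂ), ‖GG t a S c y‖ = (1 + 4 * t ^ 2) ^ (-(m : ℝ) / 4) *
      ‖FF t S (fun k => c k * ek k a) (fun j => y j + 2 * a j * t)‖

/-- the modified coefficients -/
noncomputable def beta {m : ℕ} (t : ℝ) (lam ξ : Fin m → ℝ) (k : Fin m → ℤ) : ℂ :=
  ∏ j, cexp (-((Real.pi * ((k j : ℝ) / 2 + lam j) ^ 2 / (2 * tau t ^ 2) : ℝ) : ℂ) +
    2 * Real.pi * I * ((ξ j * ((k j : ℝ) / 2 + lam j) / tau t -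
      t * ((k j : ℝ) / 2 + lam j) ^ 2 / tau t ^ 2 : ℝ) : ℂ))

/-- **GAU2** on a window of length `τ` the sum is an average of trigonometric polynomials -/
def Gau2Stm : Prop := ∀ (m : ℕ) (q t : ℝ) (S : Finset (Fin m → ℤ)) (c : (Fin m → ℤ) → ℂ)
    (lam s : Fin m → ℝ), 1 ≤ q → (∀ j, |s j| ≤ tau t) →
    ‖FF t S c (fun j => lam j + s j)‖ₑ ^ q ≤ ENNReal.ofReal (Real.exp (Real.pi * m * q)) *
      ∫⁻ ξ : Fin m → ℝ, ENNReal.ofReal (∏ j, (Real.sqrt 2 * Real.exp (-2 * Real.pi * ξ j ^ 2))) *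
        ‖trig S (fun k => c k * beta t lam ξ k) (fun j => -(2 * t / tau t ^ 2) * s j)‖ₑ ^ q

/-- the weights -/
noncomputable def ww {m : ℕ} (t : ℝ) (lam : Fin m → ℝ) (k : Fin m → ℤ) : ℝ :=
  ∏ j, Real.exp (-Real.pi * ((k j : ℝ) / 2 + lam j) ^ 2 / (2 * tau t ^ 2))

/-- **GAU3** the estimate of one window -/
def Gau3Stm : Prop := ∀ (m : ℕ) (q δ : ℝ), 2 ≤ q → 0 ≤ δ → δ ≤ 1 → ∃ C : ℝ≥0,
    ∀ (Λ : Set (Fin m → ℤ)) (K : ℝ≥0), Lam Λ q δ K → ∀ t : ℝ, 1 ≤ |t| →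
    ∀ (S : Finset (Fin m → ℤ)) (c : (Fin m → ℤ) → ℂ), (∀ k ∈ S, k ∈ Λ) →
    ∀ lam ξ : Fin m → ℝ,
    ∫⁻ s in Set.pi univ (fun _ : Fin m => Ico (0 : ℝ) (tau t)),
      ‖trig S (fun k => c k * beta t lam ξ k) (fun j => -(2 * t / tau t ^ 2) * s j)‖ₑ ^ q ≤
    ENNReal.ofReal (|t| ^ m) * (C * K * ENNReal.ofReal (|t| ^ δ)) ^ q *
      (∑ k ∈ S, ‖c k‖ₑ ^ 2 * ENNReal.ofReal (ww t lam k)) ^ (q / 2)

/-- **GAU** the Gaussian weighted estimate -/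
def GauStm : Prop := ∀ (m : ℕ) (q δ : ℝ), 2 ≤ q → 0 ≤ δ → δ ≤ 1 → ∃ C : ℝ≥0,
    ∀ (Λ : Set (Fin m → ℤ)) (K : ℝ≥0), Lam Λ q δ K → ∀ t : ℝ, 1 ≤ |t| →
    ∀ (S : Finset (Fin m → ℤ)) (c : (Fin m → ℤ) → ℂ), (∀ k ∈ S, k ∈ Λ) →
    ∀ a : Fin m → ℝ, ∫⁻ y : Fin m → ℝ, ‖GG t a S c y‖ₑ ^ q ≤
      (C * K * ENNReal.ofReal (|t| ^ (δ - m * (1 / 2 - 1 / q))) * l2 S c) ^ q

/-- **GAU4** assembly -/
def Gau4Stm : Prop := Gau1Stm → Gau2Stm → Gau3Stm → GauStm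

/-- the inverse Fourier transform in one variable -/
noncomputable def Th (H : ℝ → ℂ) (v : ℝ) : ℂ := ∫ η : ℝ, H η * cexp (2 * Real.pi * I * ((η * v : ℝ) : ℂ))

/-- **TRAP** a cut-off function of width `ρ` with small Wiener norm -/
def TrapStm : Prop := ∀ ε : ℝ, 0 < ε → ε ≤ 1 → ∃ C : ℝ≥0, ∀ ρ : ℝ, 0 < ρ → ρ ≤ 1 / 2 →
    ∃ H : ℝ → ℂ, Measurable H ∧ Integrable H ∧
      ∫⁻ η, ‖H η‖ₑ ≤ C * ENNReal.ofReal (ρ ^ (-ε)) ∧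
      (∀ v : ℝ, |v| ≤ 1 - ρ → Th H v = 1) ∧ (∀ v : ℝ, 1 ≤ |v| → Th H v = 0) ∧
      (∀ v : ℝ, ‖Th H v‖ ≤ 1)

/-- the truncated superposition of Gaussians -/
noncomputable def WW (A v : ℝ) : ℝ := ∫ a in Icc (-A) A, Real.exp (-Real.pi * (v - a) ^ 2)

/-- the smooth cut-off -/
noncomputable def cut {m : ℕ} (H : ℝ → ℂ) (A : ℝ) (v : Fin m → ℝ) : ℂ :=
  ∏ j, (Th H (v j) * (WW A (v j) : ℂ))

/-- **MAIN** the smooth cut-off is a superposition of Gaussian weighted operators -/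
def MainStm : Prop := ∀ (m : ℕ) (q : ℝ) (H : ℝ → ℂ) (A t : ℝ) (S : Finset (Fin m → ℤ))
    (c : (Fin m → ℤ) → ℂ) (B : ℝ≥0∞), 1 ≤ q → Measurable H → Integrable H → 0 < A →
    (∀ a : Fin m → ℝ, ∫⁻ y : Fin m → ℝ, ‖GG t a S c y‖ₑ ^ q ≤ B) →
    ∫⁻ y : Fin m → ℝ, ‖∫ v : Fin m → ℝ, cut H A v * trig S c v * em y t v‖ₑ ^ q ≤
      ((ENNReal.ofReal (2 * A) * ∫⁻ η, ‖H η‖ₑ) ^ m) ^ q * B

/-- **LAY** the error of the smooth cut-off -/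
def LayStm : Prop := ∀ m : ℕ, ∃ C : ℝ≥0, ∀ (H : ℝ → ℂ) (ρ A : ℝ), Integrable H →
    0 < ρ → ρ ≤ 1 / 2 → 1 ≤ A →
    (∀ v : ℝ, |v| ≤ 1 - ρ → Th H v = 1) → (∀ v : ℝ, 1 ≤ |v| → Th H v = 0) →
    (∀ v : ℝ, ‖Th H v‖ ≤ 1) →
    Measurable (fun v : Fin m → ℝ => cut H A v) ∧
    (∀ v : Fin m → ℝ, ‖cut H A v‖ ≤ 1) ∧
    (1 ≤ m → ∀ v : Fin m → ℝ, v ∉ CB m → cut H A v = 0) ∧
    ∫⁻ v in CB m, ‖1 - cut H A v‖ₑ ^ 2 ≤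
      C * (ENNReal.ofReal ρ + ENNReal.ofReal (Real.exp (-(A - 1))))

/-- **PARS** Parseval's identity for trigonometric polynomials -/
def ParsStm : Prop := ∀ (m : ℕ) (S : Finset (Fin m → ℤ)) (c : (Fin m → ℤ) → ℂ),
    ∫⁻ v in CB m, ‖trig S c v‖ₑ ^ 2 = 2 ^ m * ∑ k ∈ S, ‖c k‖ₑ ^ 2

/-- **APX** approximation by trigonometric polynomials on the cube -/
def ApxStm : Prop := ∀ (m : ℕ) (g : (Fin m → ℝ) → ℂ), Measurable g →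
    ∫⁻ v in CB m, ‖g v‖ₑ ^ 2 ≠ ∞ → ∀ ε : ℝ≥0∞, ε ≠ 0 →
    ∃ (S : Finset (Fin m → ℤ)) (c : (Fin m → ℤ) → ℂ),
      (∀ k ∈ S, ∫ v in CB m, g v * (starRingEnd ℂ) (ek k v) ≠ 0) ∧
      2 ^ m * ∑ k ∈ S, ‖c k‖ₑ ^ 2 ≤ ∫⁻ v in CB m, ‖g v‖ₑ ^ 2 ∧
      ∫⁻ v in CB m, ‖g v - trig S c v‖ₑ ^ 2 ≤ ε

end Pool.Agent.W786.Ls
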