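import Mathlib
import Pool.Agent.W786.Ls.Stm
set_option autoImplicit false

/-!
# Project LS: the converse, statements

If the extension estimate holds for all functions with frequencies in `Λ`, then `Λ` is almost a
`Λ(q)` set. Mathlib only.
-/

namespace Pool.Agent.W786.Ls

open MeasureTheory Set Complex
open scoped ENNReal NNReal

/-- the extension of the characteristic function of `[-1,1)` in one variable -/
noncomputable def ph1 (t z : ℝ) : ℂ := ∫ v in Ico (-1 : ℝ) 1, qe z t v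

/-- **CV1** the extension of the characteristic function of the interval -/
def Cv1Stm : Prop :=
  (∃ C : ℝ≥0, ∀ t z : ℝ, 1 ≤ t → ‖ph1 t z‖ ≤ C * t ^ (-(1 / 2) : ℝ)) ∧
  (∀ t z w : ℝ, 1 ≤ t →
    ‖cexp (Real.pi * I * ((z ^ 2 / (2 * t) : ℝ) : ℂ)) * ph1 t z -
      cexp (Real.pi * I * ((w ^ 2 / (2 * t) : ℝ) : ℂ)) * ph1 t w‖ ≤ |z - w| / t) ∧
  (∀ q : ℝ, 2 ≤ q → ∃ c : ℝ, 0 < c ∧ ∀ t : ℝ, 1 ≤ t →
    ENNReal.ofReal (c * t ^ (1 - q / 2)) ≤ ∫⁻ y in Icc (-4 * t) (4 * t), ‖ph1 t y‖ₑ ^ q)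

/-- the extension operator at time `t` on trigonometric polynomials -/
noncomputable def TT {m : ℕ} (t : ℝ) (S : Finset (Fin m → ℤ)) (c : (Fin m → ℤ) → ℂ)
    (y : Fin m → ℝ) : ℂ := ∫ v in CB m, trig S c v * em y t v

/-- **CV2** lower bound at a fixed time, averaged over the translates of the polynomial -/
def Cv2Stm : Prop := ∀ (n : ℕ) (q : ℝ), 1 ≤ n → 2 ≤ q → ∃ (c0 : ℝ) (C : ℝ≥0), 0 < c0 ∧
    ∀ (N t : ℝ) (S : Finset (Fin n → ℤ)) (c : (Fin n → ℤ) → ℂ), 1 ≤ N →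
    N ^ ((n : ℝ) + 4) ≤ t → (∀ k ∈ S, ‖k‖ ≤ N) →
    ENNReal.ofReal (c0 * t ^ (n * (1 - q / 2))) * ∫⁻ v in CB n, ‖trig S c v‖ₑ ^ q ≤
      (∫⁻ α in CB n, ∫⁻ y : Fin n → ℝ, ‖TT t S (fun k => c k * ek k α) y‖ₑ ^ q) +
        ENNReal.ofReal (t ^ (n * (1 - q / 2))) * (C * l2 S c) ^ q

/-- **CV3** the converse: an extension estimate implies the `Λ(q)` property with a small loss -/
def Cv3Stm : Prop := ∀ (n : ℕ) (q θ : ℝ), 1 ≤ n → 2 ≤ q → 0 ≤ θ →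
    0 ≤ n * (q / 2 - 1) + θ - 1 → ∃ C : ℝ≥0, ∀ (Λ : Set (Fin n → ℤ)) (B : ℝ≥0),
    (∀ (S : Finset (Fin n → ℤ)) (c : (Fin n → ℤ) → ℂ), (∀ k ∈ S, k ∈ Λ) →
      ∫⁻ t in Ici (1 : ℝ), ENNReal.ofReal (t ^ (-θ)) *
        ∫⁻ y : Fin n → ℝ, ‖TT t S c y‖ₑ ^ q ≤ (B * l2 S c) ^ q) →
    Lam Λ q ((n + 4) * (n * (q / 2 - 1) + θ - 1) / q) (C * (B + 1))

end Pool.Agent.W786.Ls
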