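import Mathlib
import Pool.Agent.W191.LS.Gau3
set_option autoImplicit false

/-! The estimate of one window for arbitrary losses `δ` (after helper191). -/

namespace Pool.Agent.W786.Ls

open Pool.Agent.W191.LS
open MeasureTheory Set Complex
open scoped ENNReal NNReal

/-- the estimate of one window, any loss -/
def Gau3All : Prop := ∀ (m : ℕ) (q δ : ℝ), 2 ≤ q → 0 ≤ δ → ∃ C : ℝ≥0,
    ∀ (Λ : Set (Fin m → ℤ)) (K : ℝ≥0), Lam Λ q δ K → ∀ t : ℝ, 1 ≤ |t| →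
    ∀ (S : Finset (Fin m → ℤ)) (c : (Fin m → ℤ) → ℂ), (∀ k ∈ S, k ∈ Λ) →
    ∀ lam ξ : Fin m → ℝ,
    ∫⁻ s in Set.pi univ (fun _ : Fin m => Ico (0 : ℝ) (tau t)),
      ‖trig S (fun k => c k * beta t lam ξ k) (fun j => -(2 * t / tau t ^ 2) * s j)‖ₑ ^ q ≤
    ENNReal.ofReal (|t| ^ m) * (C * K * ENNReal.ofReal (|t| ^ δ)) ^ q *
      (∑ k ∈ S, ‖c k‖ₑ ^ 2 * ENNReal.ofReal (ww t lam k)) ^ (q / 2)

/-- the Gaussian weighted estimate, any loss -/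
def GauAll : Prop := ∀ (m : ℕ) (q δ : ℝ), 2 ≤ q → 0 ≤ δ → ∃ C : ℝ≥0,
    ∀ (Λ : Set (Fin m → ℤ)) (K : ℝ≥0), Lam Λ q δ K → ∀ t : ℝ, 1 ≤ |t| →
    ∀ (S : Finset (Fin m → ℤ)) (c : (Fin m → ℤ) → ℂ), (∀ k ∈ S, k ∈ Λ) →
    ∀ a : Fin m → ℝ, ∫⁻ y : Fin m → ℝ, ‖GG t a S c y‖ₑ ^ q ≤
      (C * K * ENNReal.ofReal (|t| ^ (δ - m * (1 / 2 - 1 / q))) * l2 S c) ^ q

theorem shell_est' {m : ℕ} (q δ : ℝ) (M : ℕ) (hq : 2 ≤ q) (hδ : 0 ≤ δ) (hδ1 : δ ≤ M)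
    (Λ : Set (Fin m → ℤ)) (K : ℝ≥0) (hL : Lam Λ q δ K) (t : ℝ) (ht : 1 ≤ |t|)
    (S : Finset (Fin m → ℤ)) (c : (Fin m → ℤ) → ℂ) (hS : ∀ k ∈ S, k ∈ Λ)
    (lam ξ : Fin m → ℝ) (i : ℕ) :
    (∫⁻ v in CB m, ‖trig (shell t lam S i) (fun k => c k * beta t lam ξ k) v‖ₑ ^ q) ^ (1 / q)
      ≤ ENNReal.ofReal (12 ^ M * ((i + 1) ^ M * Real.exp (-(1 / 2 * i)))) *
        (K * ENNReal.ofReal (|t| ^ δ) * WS t lam S c ^ (1 / 2 : ℝ)) := by
  have hτ := tau_pos t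
  have hN : (1 : ℝ) ≤ 4 * (i + 1) * tau t := by
    have := tau_one t
    have h2 : (0 : ℝ) ≤ i := Nat.cast_nonneg i
    nlinarith
  have h1 := hL (4 * (i + 1) * tau t) (shell t lam S i) (fun k => c k * beta t lam ξ k) hN
    (fun k hk => hS k (Finset.mem_filter.1 hk).1) (shell_diam t lam S i)
  have hq0 : 0 < q := by linarith
  have h2 := ENNReal.rpow_le_rpow h1 (by positivity : 0 ≤ 1 / q)
  rw [← ENNReal.rpow_mul, mul_one_div_cancel hq0.ne', ENNReal.rpow_one] at h2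
  refine h2.trans ?_
  have h3 : (4 * (i + 1) * tau t) ^ δ ≤ 12 ^ M * (i + 1) ^ M * |t| ^ δ := by
    have hi : (0 : ℝ) ≤ i := Nat.cast_nonneg i
    rw [Real.mul_rpow (by positivity) hτ.le]
    have ha : (4 * ((i : ℝ) + 1)) ^ δ ≤ (4 * (i + 1)) ^ M := by
      have := Real.rpow_le_rpow_of_exponent_le (by linarith : (1 : ℝ) ≤ 4 * ((i : ℝ) + 1)) hδ1
      rwa [Real.rpow_natCast] at this
    have hb : tau t ^ δ ≤ 3 ^ M * |t| ^ δ := by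
      calc tau t ^ δ ≤ (3 * |t|) ^ δ := Real.rpow_le_rpow hτ.le (tau_le t ht) hδ
        _ = 3 ^ δ * |t| ^ δ := Real.mul_rpow (by norm_num) (abs_nonneg _)
        _ ≤ 3 ^ M * |t| ^ δ := by
            have := Real.rpow_le_rpow_of_exponent_le (by norm_num : (1 : ℝ) ≤ 3) hδ1
            rw [Real.rpow_natCast] at this
            gcongr
    calc (4 * ((i : ℝ) + 1)) ^ δ * tau t ^ δ ≤ (4 * (i + 1)) ^ M * (3 ^ M * |t| ^ δ) := by
          gcongr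
      _ = 12 ^ M * (i + 1) ^ M * |t| ^ δ := by
          rw [mul_pow, show (12 : ℝ) = 4 * 3 by norm_num, mul_pow]
          ring
  calc (K : ℝ≥0∞) * ENNReal.ofReal ((4 * (i + 1) * tau t) ^ δ)
        * l2 (shell t lam S i) (fun k => c k * beta t lam ξ k)
      ≤ (K : ℝ≥0∞) * ENNReal.ofReal (12 ^ M * (i + 1) ^ M * |t| ^ δ)
        * (ENNReal.ofReal (Real.exp (-(1 / 2 * i))) * WS t lam S c ^ (1 / 2 : ℝ)) := by
        gcongr
        exact l2_shell t lam ξ S c i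
    _ = _ := by
        rw [ENNReal.ofReal_mul (by positivity : (0:ℝ) ≤ 12 ^ M * ((i : ℝ) + 1) ^ M),
          ← mul_assoc ((12 : ℝ) ^ M) (((i : ℝ) + 1) ^ M),
          ENNReal.ofReal_mul (by positivity : (0:ℝ) ≤ 12 ^ M * ((i : ℝ) + 1) ^ M)]
        ring

theorem sum_bd' (M : ℕ) : ∃ C : ℝ, 1 ≤ C ∧ ∀ n : ℕ,
    ∑ i ∈ Finset.range n, 12 ^ M * (((i : ℝ) + 1) ^ M * Real.exp (-(1 / 2 * i))) ≤ C := by
  have h3 : Summable fun i : ℕ => 12 ^ M * (((i : ℝ) + 1) ^ M * Real.exp (-(1 / 2 * i))) := by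
    have h1 := Real.summable_pow_mul_exp_neg_nat_mul M (by norm_num : (0 : ℝ) < 1 / 2)
    have h2 := (summable_nat_add_iff 1).mpr h1
    have h4 := (h2.mul_left (Real.exp (1 / 2))).mul_left (12 ^ M)
    refine h4.congr fun i => ?_
    push_cast
    have e : Real.exp (-(1 / 2) * ((i : ℝ) + 1)) * Real.exp (1 / 2) = Real.exp (-(1 / 2 * i)) := by
      rw [← Real.exp_add]
      congr 1
      ring
    rw [← e]
    ring
  refine ⟨max 1 (∑' i : ℕ, 12 ^ M * (((i : ℝ) + 1) ^ M * Real.exp (-(1 / 2 * i)))),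
    le_max_left _ _, fun n => le_trans ?_ (le_max_right _ _)⟩
  exact h3.sum_le_tsum _ fun i _ => by positivity

theorem gau3All : Gau3All := by
  intro m q δ hq hδ
  obtain ⟨C1, hC1, hC1s⟩ := sum_bd' ⌈δ⌉₊
  refine ⟨Real.toNNReal (C1 * (5 / 2) ^ m), ?_⟩
  intro Λ K hL t ht S c hS lam ξ
  have hq0 : 0 < q := by linarith
  have hq1 : 1 ≤ q := by linarith
  set P : (Fin m → ℝ) → ℂ := trig S (fun k => c k * beta t lam ξ k) with hP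
  have hPc : Continuous P := Pool.Agent.W191.LS.trig_cont _ _
  have h1 := window t ht (fun v => ‖P v‖ₑ ^ q)
    ((hPc.measurable.enorm).pow_const q)
  refine h1.trans ?_
  obtain ⟨n, hn⟩ : ∃ n : ℕ, ∀ k ∈ S, idx t lam k < n := by
    refine ⟨S.sup (idx t lam) + 1, fun k hk => Nat.lt_succ_of_le (Finset.le_sup hk)⟩
  have h2 : (∫⁻ v in CB m, ‖P v‖ₑ ^ q) ^ (1 / q)
      ≤ ENNReal.ofReal C1 * (K * ENNReal.ofReal (|t| ^ δ) * WS t lam S c ^ (1 / 2 : ℝ)) := by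
    rw [hP, trig_shells t lam S _ n hn]
    refine (mink q hq1 n _ fun i => Pool.Agent.W191.LS.trig_cont _ _).trans ?_
    refine (Finset.sum_le_sum fun i _ =>
      shell_est' q δ ⌈δ⌉₊ hq hδ (Nat.le_ceil δ) Λ K hL t ht S c hS lam ξ i).trans ?_
    rw [← Finset.sum_mul]
    gcongr
    rw [← ENNReal.ofReal_sum_of_nonneg fun i _ => by positivity]
    exact ENNReal.ofReal_le_ofReal (hC1s n)
  have h3 : ∫⁻ v in CB m, ‖P v‖ₑ ^ q
      ≤ (ENNReal.ofReal C1 * (K * ENNReal.ofReal (|t| ^ δ) * WS t lam S c ^ (1 / 2 : ℝ))) ^ q := by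
    have := ENNReal.rpow_le_rpow h2 hq0.le
    rwa [← ENNReal.rpow_mul, one_div_mul_cancel hq0.ne', ENNReal.rpow_one] at this
  have h4 : ENNReal.ofReal ((5 / 2 * |t|) ^ m)
      ≤ ENNReal.ofReal (|t| ^ m) * ENNReal.ofReal ((5 / 2 : ℝ) ^ m) ^ q := by
    rw [mul_pow, mul_comm, ENNReal.ofReal_mul (by positivity)]
    gcongr
    have h5 : (1 : ℝ≥0∞) ≤ ENNReal.ofReal ((5 / 2 : ℝ) ^ m) := by
      rw [← ENNReal.ofReal_one]
      exact ENNReal.ofReal_le_ofReal (one_le_pow₀ (by norm_num))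
    calc ENNReal.ofReal ((5 / 2 : ℝ) ^ m) = ENNReal.ofReal ((5 / 2 : ℝ) ^ m) ^ (1 : ℝ) := by
          rw [ENNReal.rpow_one]
      _ ≤ _ := ENNReal.rpow_le_rpow_of_exponent_le h5 hq1
  have e : (∑ k ∈ S, ‖c k‖ₑ ^ 2 * ENNReal.ofReal (ww t lam k)) ^ (q / 2)
      = (WS t lam S c ^ (1 / 2 : ℝ)) ^ q := by
    rw [← ENNReal.rpow_mul]
    unfold WS
    congr 1
    ring
  rw [e]
  have eC : ((Real.toNNReal (C1 * (5 / 2) ^ m) : ℝ≥0) : ℝ≥0∞)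
      = ENNReal.ofReal C1 * ENNReal.ofReal ((5 / 2 : ℝ) ^ m) := by
    rw [← ENNReal.ofReal_mul (by linarith)]
    rfl
  rw [eC]
  calc ENNReal.ofReal ((5 / 2 * |t|) ^ m) * ∫⁻ v in CB m, ‖P v‖ₑ ^ q
      ≤ (ENNReal.ofReal (|t| ^ m) * ENNReal.ofReal ((5 / 2 : ℝ) ^ m) ^ q)
        * (ENNReal.ofReal C1
          * (K * ENNReal.ofReal (|t| ^ δ) * WS t lam S c ^ (1 / 2 : ℝ))) ^ q := by
        gcongr
    _ = _ := by
        simp only [ENNReal.mul_rpow_of_nonneg _ _ hq0.le]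
        ring

end Pool.Agent.W786.Ls
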