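import Mathlib
import Pool.Agent.W786.Ls.Gd
import Pool.Agent.W22.LS.Gau4
set_option autoImplicit false

/-! Assembly of the Gaussian weighted estimate for arbitrary losses `δ` (after helper22). -/

namespace Pool.Agent.W786.Ls

open Pool.Agent.W22.LS
open MeasureTheory Set Complex
open scoped ENNReal NNReal

theorem gauAll (hG1 : Gau1Stm) (hG2 : Gau2Stm) (hG3 : Gau3All) : GauAll := by
  intro m q δ hq hδ0
  have hq0 : 0 < q := by linarith
  obtain ⟨C, hC⟩ := hG3 m q δ hq hδ0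
  set E : ℝ≥0 := (Real.exp (Real.pi * m)).toNNReal * (Real.sqrt 2).toNNReal ^ m with hE
  refine ⟨E * C, fun Λ K hK t ht S c hS a => ?_⟩
  have hτ := tau_pos t
  set c' : (Fin m → ℤ) → ℂ := fun k => c k * ek k a with hc'
  have hcn : ∀ k, ‖c' k‖ₑ = ‖c k‖ₑ := by
    intro k
    rw [hc', enorm_mul, ← ofReal_norm (ek k a), norm_ek, ENNReal.ofReal_one, mul_one]
  set A : ℝ≥0∞ := ∑ k ∈ S, ‖c k‖ₑ ^ 2 with hA
  set Y : ℝ≥0∞ := (C * K * ENNReal.ofReal (|t| ^ δ)) ^ q with hY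
  set II : ℝ≥0∞ := ∫⁻ y : Fin m → ℝ, ‖FF t S c' y‖ₑ ^ q with hII
  have hI : ENNReal.ofReal (tau t) ^ m * II ≤ ENNReal.ofReal (tau t) ^ m *
      (ENNReal.ofReal (Real.exp (Real.pi * m * q)) * (ENNReal.ofReal (|t| ^ m) * Y *
        (A ^ (q / 2) * ENNReal.ofReal (Real.sqrt 2) ^ m))) := by
    rw [hII, averaging]
    calc _ ≤ ∫⁻ lam : Fin m → ℝ, ENNReal.ofReal (Real.exp (Real.pi * m * q)) *
          (ENNReal.ofReal (|t| ^ m) * Y *
            (∑ k ∈ S, ‖c' k‖ₑ ^ 2 * ENNReal.ofReal (ww t lam k)) ^ (q / 2)) := by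
          refine lintegral_mono fun lam => ?_
          exact window hG2 (by linarith) t S c' lam _ fun ξ => hC Λ K hK t ht S c' hS lam ξ
      _ = ENNReal.ofReal (Real.exp (Real.pi * m * q)) * (ENNReal.ofReal (|t| ^ m) * Y *
            ∫⁻ lam : Fin m → ℝ,
              (∑ k ∈ S, ‖c' k‖ₑ ^ 2 * ENNReal.ofReal (ww t lam k)) ^ (q / 2)) := by
          have hm : Measurable fun lam : Fin m → ℝ =>
              (∑ k ∈ S, ‖c' k‖ₑ ^ 2 * ENNReal.ofReal (ww t lam k)) ^ (q / 2) :=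
            (Finset.measurable_sum _ fun k _ =>
              ((cont_ww t k).measurable.ennreal_ofReal).const_mul _).pow_const _
          rw [lintegral_const_mul _ (hm.const_mul _), lintegral_const_mul _ hm]
      _ ≤ ENNReal.ofReal (Real.exp (Real.pi * m * q)) * (ENNReal.ofReal (|t| ^ m) * Y *
            (A ^ (q / 2) * ENNReal.ofReal (Real.sqrt 2 * tau t) ^ m)) := by
          gcongr
          have h := weights hq t S c'
          simp only [hcn] at h ⊢
          exact h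
      _ = _ := by
          rw [ENNReal.ofReal_mul (Real.sqrt_nonneg 2), mul_pow]
          ring
  have hI2 : II ≤ ENNReal.ofReal (Real.exp (Real.pi * m * q)) * (ENNReal.ofReal (|t| ^ m) * Y *
        (A ^ (q / 2) * ENNReal.ofReal (Real.sqrt 2) ^ m)) := by
    have h0 : ENNReal.ofReal (tau t) ^ m ≠ 0 := by
      refine pow_ne_zero _ ?_
      rw [Ne, ENNReal.ofReal_eq_zero, not_le]
      exact hτ
    have h1 : ENNReal.ofReal (tau t) ^ m ≠ ∞ := ENNReal.pow_ne_top ENNReal.ofReal_ne_top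
    exact (ENNReal.mul_le_mul_iff_right h0 h1).mp hI
  have hGG : ∫⁻ y : Fin m → ℝ, ‖GG t a S c y‖ₑ ^ q =
      ENNReal.ofReal ((1 + 4 * t ^ 2) ^ (-(m : ℝ) / 4)) ^ q * II := by
    have h1 : ∀ y : Fin m → ℝ, ‖GG t a S c y‖ₑ ^ q =
        ENNReal.ofReal ((1 + 4 * t ^ 2) ^ (-(m : ℝ) / 4)) ^ q *
          ‖FF t S c' (fun j => y j + 2 * a j * t)‖ₑ ^ q := by
      intro y
      rw [← ofReal_norm, hG1, ENNReal.ofReal_mul (by positivity), ofReal_norm,
        ENNReal.mul_rpow_of_nonneg _ _ hq0.le]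
    simp only [h1]
    have hm : Measurable fun y : Fin m → ℝ => ‖FF t S c' (fun j => y j + 2 * a j * t)‖ₑ ^ q := by
      have h2 : Continuous fun y : Fin m → ℝ => (fun j => y j + 2 * a j * t : Fin m → ℝ) := by
        fun_prop
      exact (((cont_FF t S c').comp h2).measurable.enorm).pow_const q
    rw [lintegral_const_mul _ hm]
    congr 1
    exact lintegral_add_right_eq_self (μ := (volume : Measure (Fin m → ℝ)))
      (fun y => ‖FF t S c' y‖ₑ ^ q) (fun j => 2 * a j * t)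
  rw [hGG]
  have hEq : ENNReal.ofReal (Real.exp (Real.pi * m * q)) * ENNReal.ofReal (Real.sqrt 2) ^ m ≤
      (E : ℝ≥0∞) ^ q := by
    rw [hE]
    push_cast
    rw [ENNReal.mul_rpow_of_nonneg _ _ hq0.le]
    have e1 : ENNReal.ofReal (Real.exp (Real.pi * m * q)) =
        ((Real.exp (Real.pi * m)).toNNReal : ℝ≥0∞) ^ q := by
      change _ = ENNReal.ofReal (Real.exp (Real.pi * m)) ^ q
      rw [ENNReal.ofReal_rpow_of_pos (Real.exp_pos _), ← Real.exp_mul]
    rw [e1]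
    gcongr
    change ENNReal.ofReal (Real.sqrt 2) ^ m ≤ (ENNReal.ofReal (Real.sqrt 2) ^ m) ^ q
    have h1 : 1 ≤ ENNReal.ofReal (Real.sqrt 2) ^ m := by
      refine one_le_pow₀ ?_
      rw [← ENNReal.ofReal_one]
      exact ENNReal.ofReal_le_ofReal (Real.one_le_sqrt.mpr (by norm_num))
    calc ENNReal.ofReal (Real.sqrt 2) ^ m = (ENNReal.ofReal (Real.sqrt 2) ^ m) ^ (1 : ℝ) :=
          (ENNReal.rpow_one _).symm
      _ ≤ _ := ENNReal.rpow_le_rpow_of_exponent_le h1 (by linarith)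
  have hl2 : A ^ (q / 2) = l2 S c ^ q := by
    unfold l2
    rw [← ENNReal.rpow_mul]
    congr 1
    ring
  calc _ ≤ ENNReal.ofReal ((1 + 4 * t ^ 2) ^ (-(m : ℝ) / 4)) ^ q *
        (ENNReal.ofReal (Real.exp (Real.pi * m * q)) * (ENNReal.ofReal (|t| ^ m) * Y *
        (A ^ (q / 2) * ENNReal.ofReal (Real.sqrt 2) ^ m))) := by gcongr
    _ = (ENNReal.ofReal (Real.exp (Real.pi * m * q)) * ENNReal.ofReal (Real.sqrt 2) ^ m) *
        ((C : ℝ≥0∞) * K) ^ q * (ENNReal.ofReal ((1 + 4 * t ^ 2) ^ (-(m : ℝ) / 4)) ^ q *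
          (ENNReal.ofReal (|t| ^ m) * ENNReal.ofReal (|t| ^ δ) ^ q)) * A ^ (q / 2) := by
        rw [hY, ENNReal.mul_rpow_of_nonneg _ _ hq0.le]
        ring
    _ ≤ (E : ℝ≥0∞) ^ q * ((C : ℝ≥0∞) * K) ^ q *
        ENNReal.ofReal (|t| ^ (δ - m * (1 / 2 - 1 / q))) ^ q * l2 S c ^ q := by
        rw [hl2]
        gcongr
        exact power_bound m hq ht
    _ = _ := by
        rw [← ENNReal.mul_rpow_of_nonneg _ _ hq0.le, ← ENNReal.mul_rpow_of_nonneg _ _ hq0.le,
          ← ENNReal.mul_rpow_of_nonneg _ _ hq0.le, ENNReal.coe_mul E C, mul_assoc (E : ℝ≥0∞) C K]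

end Pool.Agent.W786.Ls
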