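import Mathlib
import Pool.Agent.W786.Ls.Stm
import Pool.Agent.W771.MC
set_option autoImplicit false

/-! The sharp cut-off: the error term and the estimate of a time slice. -/

namespace Pool.Agent.W786.Ls

open MeasureTheory Set Complex
open scoped ENNReal NNReal

variable {m : ℕ}

lemma em_eq (y : Fin m → ℝ) (t : ℝ) (v : Fin m → ℝ) :
    em y t v = Pool.Agent.W771.MD.em y t v := rfl

lemma CB_eq : CB m = Pool.Agent.W771.MD.CC m := rfl

lemma CB_meas : MeasurableSet (CB m) := MeasurableSet.univ_pi fun _ => measurableSet_Ico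

lemma em_norm (y : Fin m → ℝ) (t : ℝ) (v : Fin m → ℝ) : ‖em y t v‖ = 1 :=
  Pool.Agent.W771.MD.em_norm y t v

lemma em_enorm (y : Fin m → ℝ) (t : ℝ) (v : Fin m → ℝ) : ‖em y t v‖ₑ = 1 :=
  Pool.Agent.W771.MD.em_enorm y t v

lemma em_meas (y : Fin m → ℝ) (t : ℝ) : Measurable (em y t) :=
  Pool.Agent.W771.MD.em_meas y t

lemma em_cont : Continuous (fun w : ((Fin m → ℝ) × ℝ) × (Fin m → ℝ) => em w.1.1 w.1.2 w.2) :=
  Pool.Agent.W771.MD.em_cont

/-- the transform is measurable -/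
lemma tr_meas (G : (Fin m → ℝ) → ℂ) (hG : Measurable G) (t : ℝ) :
    Measurable (fun y : Fin m → ℝ => ∫ v, G v * em y t v) := by
  apply StronglyMeasurable.measurable
  apply StronglyMeasurable.integral_prod_right'
    (f := fun w : (Fin m → ℝ) × (Fin m → ℝ) => G w.2 * em w.1 t w.2)
  apply Measurable.stronglyMeasurable
  apply Measurable.mul (hG.comp measurable_snd)
  have h : Continuous (fun w : (Fin m → ℝ) × (Fin m → ℝ) =>
      (((w.1, t), w.2) : ((Fin m → ℝ) × ℝ) × (Fin m → ℝ))) := by fun_prop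
  exact (em_cont.comp h).measurable

/-- interpolation between the supremum and the `L²` norm -/
lemma err_bd (G : (Fin m → ℝ) → ℂ) (h1 : Integrable G) (h2 : MemLp G 2) (t q : ℝ) (hq : 2 ≤ q) :
    ∫⁻ y : Fin m → ℝ, ‖∫ v, G v * em y t v‖ₑ ^ q ≤
      (∫⁻ v, ‖G v‖ₑ) ^ (q - 2) * ∫⁻ v, ‖G v‖ₑ ^ 2 := by
  have hp := Pool.Agent.W771.MD.planchM G h1 h2 t
  have hs : ∀ y : Fin m → ℝ, ‖∫ v, G v * em y t v‖ₑ ≤ ∫⁻ v, ‖G v‖ₑ := by
    intro y
    refine (enorm_integral_le_lintegral_enorm _).trans (le_of_eq ?_)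
    congr 1
    ext v
    rw [enorm_mul, em_enorm, mul_one]
  have hfin : (∫⁻ v, ‖G v‖ₑ) ^ (q - 2) ≠ ∞ :=
    ENNReal.rpow_ne_top_of_nonneg (by linarith) h1.2.ne
  calc ∫⁻ y : Fin m → ℝ, ‖∫ v, G v * em y t v‖ₑ ^ q ≤
      ∫⁻ y : Fin m → ℝ, (∫⁻ v, ‖G v‖ₑ) ^ (q - 2) * ‖∫ v, G v * em y t v‖ₑ ^ 2 := by
        apply lintegral_mono
        intro y
        simp only
        have e1 : ‖∫ v, G v * em y t v‖ₑ ^ q =
            ‖∫ v, G v * em y t v‖ₑ ^ (q - 2) * ‖∫ v, G v * em y t v‖ₑ ^ 2 := by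
          rw [← ENNReal.rpow_natCast, ← ENNReal.rpow_add_of_nonneg _ _ (by linarith) (by norm_num)]
          congr 1
          push_cast
          ring
        rw [e1]
        gcongr
        exact hs y
    _ = (∫⁻ v, ‖G v‖ₑ) ^ (q - 2) * ∫⁻ y : Fin m → ℝ, ‖∫ v, G v * em y t v‖ₑ ^ 2 :=
        lintegral_const_mul' _ _ hfin
    _ = _ := by
        congr 1

lemma trig_cont (S : Finset (Fin m → ℤ)) (c : (Fin m → ℤ) → ℂ) : Continuous (trig S c) := by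
  unfold trig ek
  fun_prop

lemma trig_meas (S : Finset (Fin m → ℤ)) (c : (Fin m → ℤ) → ℂ) : Measurable (trig S c) :=
  (trig_cont S c).measurable

lemma l2_sq (S : Finset (Fin m → ℤ)) (c : (Fin m → ℤ) → ℂ) :
    l2 S c ^ 2 = ∑ k ∈ S, ‖c k‖ₑ ^ 2 := by
  unfold l2
  rw [← ENNReal.rpow_natCast, ← ENNReal.rpow_mul]
  norm_num

lemma l2_ne_top (S : Finset (Fin m → ℤ)) (c : (Fin m → ℤ) → ℂ) : l2 S c ≠ ∞ := by
  unfold l2
  apply ENNReal.rpow_ne_top_of_nonneg (by norm_num)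
  exact ENNReal.sum_ne_top.mpr fun k _ => ENNReal.pow_ne_top enorm_ne_top

lemma CB_vol : volume (CB m) = 2 ^ m := Pool.Agent.W771.MD.CC_vol

/-- Cauchy-Schwarz -/
lemma cs_lint {α : Type*} [MeasurableSpace α] (μ : Measure α) (f g : α → ℝ≥0∞)
    (hf : AEMeasurable f μ) (hg : AEMeasurable g μ) :
    (∫⁻ v, f v * g v ∂μ) ^ 2 ≤ (∫⁻ v, f v ^ 2 ∂μ) * ∫⁻ v, g v ^ 2 ∂μ := by
  have h := ENNReal.lintegral_mul_le_Lp_mul_Lq μ Real.HolderConjugate.two_two hf hg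
  simp only [ENNReal.rpow_ofNat, Pi.mul_apply] at h
  calc (∫⁻ v, f v * g v ∂μ) ^ 2 ≤ ((∫⁻ v, f v ^ 2 ∂μ) ^ (1 / 2 : ℝ) *
        (∫⁻ v, g v ^ 2 ∂μ) ^ (1 / 2 : ℝ)) ^ 2 := by gcongr
    _ = _ := by
        rw [mul_pow, ← ENNReal.rpow_natCast, ← ENNReal.rpow_natCast, ← ENNReal.rpow_mul,
          ← ENNReal.rpow_mul]
        norm_num

/-- the error of the smooth cut-off -/
lemma err_slice (hPars : ParsStm) (m : ℕ) (q : ℝ) (hq : 2 ≤ q) (D : (Fin m → ℝ) → ℂ)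
    (hD : Measurable D) (hD2 : ∀ v, ‖D v‖ ≤ 2) (E : ℝ≥0∞)
    (hE : ∫⁻ v in CB m, ‖D v‖ₑ ^ 2 ≤ E) (t : ℝ)
    (S : Finset (Fin m → ℤ)) (c : (Fin m → ℤ) → ℂ) :
    ∫⁻ y : Fin m → ℝ, ‖∫ v, (CB m).indicator (fun v => D v * trig S c v) v * em y t v‖ₑ ^ q ≤
      (E * 2 ^ m) ^ ((q - 2) / 2) * (4 * 2 ^ m) * l2 S c ^ q := by
  set G : (Fin m → ℝ) → ℂ := (CB m).indicator (fun v => D v * trig S c v) with hG
  have hGm : Measurable G := (hD.mul (trig_meas S c)).indicator CB_meas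
  have hpars := hPars m S c
  have hl := l2_sq S c
  have hDe : ∀ v, ‖D v‖ₑ ≤ 2 := by
    intro v
    rw [← ofReal_norm]
    calc ENNReal.ofReal ‖D v‖ ≤ ENNReal.ofReal 2 := ENNReal.ofReal_le_ofReal (hD2 v)
      _ = 2 := by norm_num
  have h2 : ∫⁻ v, ‖G v‖ₑ ^ 2 ≤ 4 * 2 ^ m * l2 S c ^ 2 := by
    calc ∫⁻ v, ‖G v‖ₑ ^ 2 = ∫⁻ v in CB m, ‖D v * trig S c v‖ₑ ^ 2 := by
          rw [← lintegral_indicator CB_meas]
          congr 1
          ext v
          by_cases hv : v ∈ CB m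
          · rw [hG, indicator_of_mem hv, indicator_of_mem hv]
          · rw [hG, indicator_of_notMem hv, indicator_of_notMem hv]
            simp
      _ ≤ ∫⁻ v in CB m, 4 * ‖trig S c v‖ₑ ^ 2 := by
          apply lintegral_mono
          intro v
          simp only
          rw [enorm_mul, mul_pow]
          gcongr
          calc ‖D v‖ₑ ^ 2 ≤ 2 ^ 2 := by gcongr; exact hDe v
            _ = 4 := by norm_num
      _ = 4 * (2 ^ m * l2 S c ^ 2) := by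
          rw [lintegral_const_mul _ ((trig_meas S c).enorm.pow_const 2), hpars, hl]
      _ = _ := by ring
  have h1 : (∫⁻ v, ‖G v‖ₑ) ^ 2 ≤ E * 2 ^ m * l2 S c ^ 2 := by
    have e1 : ∫⁻ v, ‖G v‖ₑ = ∫⁻ v in CB m, ‖D v‖ₑ * ‖trig S c v‖ₑ := by
      rw [← lintegral_indicator CB_meas]
      congr 1
      ext v
      by_cases hv : v ∈ CB m
      · rw [hG, indicator_of_mem hv, indicator_of_mem hv, enorm_mul]
      · rw [hG, indicator_of_notMem hv, indicator_of_notMem hv, enorm_zero]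
    rw [e1]
    refine (cs_lint _ _ _ hD.enorm.aemeasurable (trig_meas S c).enorm.aemeasurable).trans ?_
    rw [hpars, hl]
    calc (∫⁻ v in CB m, ‖D v‖ₑ ^ 2) * (2 ^ m * ∑ k ∈ S, ‖c k‖ₑ ^ 2) ≤
        E * (2 ^ m * ∑ k ∈ S, ‖c k‖ₑ ^ 2) := by gcongr
      _ = _ := by ring
  have h2t : 4 * 2 ^ m * l2 S c ^ 2 ≠ ∞ := by
    apply ENNReal.mul_ne_top
    · exact ENNReal.mul_ne_top (by norm_num) (ENNReal.pow_ne_top (by norm_num))
    · exact ENNReal.pow_ne_top (l2_ne_top S c)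
  have hG2 : MemLp G 2 := by
    refine ⟨hGm.aestronglyMeasurable, ?_⟩
    rw [eLpNorm_lt_top_iff_lintegral_rpow_enorm_lt_top (by norm_num) (by norm_num)]
    simp only [ENNReal.toReal_ofNat, ENNReal.rpow_ofNat]
    exact lt_of_le_of_lt h2 (lt_top_iff_ne_top.mpr h2t)
  have hG1 : Integrable G := by
    have k1 : MemLp (fun v => D v * trig S c v) 2 (volume.restrict (CB m)) :=
      (memLp_indicator_iff_restrict CB_meas).mp hG2
    have : IsFiniteMeasure (volume.restrict (CB m)) := ⟨by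
      rw [Measure.restrict_apply_univ, CB_vol]
      exact ENNReal.pow_lt_top (by norm_num)⟩
    exact (integrable_indicator_iff CB_meas).mpr (k1.integrable (by norm_num))
  refine (err_bd G hG1 hG2 t q hq).trans ?_
  have e3 : (∫⁻ v, ‖G v‖ₑ) ^ (q - 2) = ((∫⁻ v, ‖G v‖ₑ) ^ 2) ^ ((q - 2) / 2) := by
    rw [← ENNReal.rpow_natCast, ← ENNReal.rpow_mul]
    congr 1
    push_cast
    ring
  rw [e3]
  calc ((∫⁻ v, ‖G v‖ₑ) ^ 2) ^ ((q - 2) / 2) * ∫⁻ v, ‖G v‖ₑ ^ 2 ≤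
      (E * 2 ^ m * l2 S c ^ 2) ^ ((q - 2) / 2) * (4 * 2 ^ m * l2 S c ^ 2) := by
        gcongr
    _ = (E * 2 ^ m) ^ ((q - 2) / 2) * (4 * 2 ^ m) *
        ((l2 S c ^ 2) ^ ((q - 2) / 2) * l2 S c ^ 2) := by
        rw [ENNReal.mul_rpow_of_nonneg _ _ (by linarith)]
        ring
    _ = _ := by
        congr 1
        rw [← ENNReal.rpow_natCast, ← ENNReal.rpow_mul, ← ENNReal.rpow_add_of_nonneg _ _
          (by push_cast; linarith) (by norm_num)]
        congr 1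
        push_cast
        ring

end Pool.Agent.W786.Ls
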