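import Mathlib
import Pool.Agent.W786.Ls.Sl1
import Pool.Agent.W786.Ls.Gd
set_option autoImplicit false

/-! The estimate of a time slice for trigonometric polynomials. -/

namespace Pool.Agent.W786.Ls

open MeasureTheory Set Complex
open scoped ENNReal NNReal

/-- the estimate of a time slice -/
def SliceStm : Prop := ∀ (m : ℕ) (q δ ε : ℝ), 1 ≤ m → 2 ≤ q → 0 ≤ δ → 0 < ε →
    ∃ C : ℝ≥0, ∀ (Λ : Set (Fin m → ℤ)) (K : ℝ≥0), 1 ≤ K → Lam Λ q δ K →
    ∀ t : ℝ, 1 ≤ |t| → ∀ (S : Finset (Fin m → ℤ)) (c : (Fin m → ℤ) → ℂ), (∀ k ∈ S, k ∈ Λ) →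
    ∫⁻ y : Fin m → ℝ, ‖∫ v in CB m, trig S c v * em y t v‖ₑ ^ q ≤
      (C * K * ENNReal.ofReal (|t| ^ (δ + ε - m * (1 / 2 - 1 / q))) * l2 S c) ^ q

lemma split_int {m : ℕ} (D : (Fin m → ℝ) → ℂ) (hD : Measurable D) (hD1 : ∀ v, ‖D v‖ ≤ 1)
    (hD0 : ∀ v, v ∉ CB m → D v = 0) (S : Finset (Fin m → ℤ)) (c : (Fin m → ℤ) → ℂ)
    (y : Fin m → ℝ) (t : ℝ) :
    ∫ v in CB m, trig S c v * em y t v = (∫ v, D v * trig S c v * em y t v) +
      ∫ v, (CB m).indicator (fun v => (1 - D v) * trig S c v) v * em y t v := by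
  have hb : ∀ v, ‖trig S c v‖ ≤ ∑ k ∈ S, ‖c k‖ := by
    intro v
    unfold trig
    refine (norm_sum_le _ _).trans (Finset.sum_le_sum fun k _ => ?_)
    rw [norm_mul]
    have : ‖ek k v‖ = 1 := by
      unfold ek
      have e : Real.pi * I * ((∑ j, (k j : ℝ) * v j : ℝ) : ℂ) =
          ((Real.pi * ∑ j, (k j : ℝ) * v j : ℝ) : ℂ) * I := by push_cast; ring
      rw [e, Complex.norm_exp_ofReal_mul_I]
    rw [this, mul_one]
  have hfin : volume (CB m) < ∞ := by
    rw [CB_vol]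
    exact ENNReal.pow_lt_top (by norm_num)
  have key : ∀ F : (Fin m → ℝ) → ℂ, Measurable F → (∀ v, ‖F v‖ ≤ 2) →
      Integrable ((CB m).indicator (fun v => F v * trig S c v * em y t v)) := by
    intro F hF hF2
    rw [integrable_indicator_iff CB_meas]
    apply Measure.integrableOn_of_bounded (M := 2 * ∑ k ∈ S, ‖c k‖) hfin.ne
    · exact ((hF.mul (trig_meas S c)).mul (em_meas y t)).aestronglyMeasurable
    · refine ae_of_all _ fun v => ?_
      rw [norm_mul, norm_mul, em_norm, mul_one]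
      exact mul_le_mul (hF2 v) (hb v) (norm_nonneg _) (by norm_num)
  rw [← integral_indicator CB_meas]
  have i1 := key D hD (fun v => (hD1 v).trans (by norm_num))
  have i2 := key (fun v => 1 - D v) (measurable_const.sub hD) (fun v => by
    calc ‖1 - D v‖ ≤ ‖(1 : ℂ)‖ + ‖D v‖ := norm_sub_le _ _
      _ ≤ 1 + 1 := by
          rw [norm_one]
          gcongr
          exact hD1 v
      _ = 2 := by norm_num)
  have e1 : (fun v => D v * trig S c v * em y t v) =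
      (CB m).indicator (fun v => D v * trig S c v * em y t v) := by
    ext v
    by_cases hv : v ∈ CB m
    · rw [indicator_of_mem hv]
    · rw [indicator_of_notMem hv, hD0 v hv]
      ring
  have e2 : (fun v => (CB m).indicator (fun v => (1 - D v) * trig S c v) v * em y t v) =
      (CB m).indicator (fun v => (1 - D v) * trig S c v * em y t v) := by
    ext v
    by_cases hv : v ∈ CB m
    · rw [indicator_of_mem hv, indicator_of_mem hv]
    · rw [indicator_of_notMem hv, indicator_of_notMem hv]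
      ring
  rw [e1, e2, ← integral_add i1 i2]
  congr 1
  ext v
  by_cases hv : v ∈ CB m
  · rw [indicator_of_mem hv, indicator_of_mem hv, indicator_of_mem hv]
    ring
  · rw [indicator_of_notMem hv, indicator_of_notMem hv, indicator_of_notMem hv]
    ring

lemma lp_add {α : Type*} [MeasurableSpace α] (μ : Measure α) (q : ℝ) (hq : 1 ≤ q)
    (f g : α → ℂ) (hf : Measurable f) (hg : Measurable g) (a b : ℝ≥0∞)
    (ha : ∫⁻ y, ‖f y‖ₑ ^ q ∂μ ≤ a ^ q) (hb : ∫⁻ y, ‖g y‖ₑ ^ q ∂μ ≤ b ^ q) :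
    ∫⁻ y, ‖f y + g y‖ₑ ^ q ∂μ ≤ (a + b) ^ q := by
  have hq0 : 0 < q := by linarith
  have h := ENNReal.lintegral_Lp_add_le (μ := μ) (f := fun y => ‖f y‖ₑ) (g := fun y => ‖g y‖ₑ)
    hf.enorm.aemeasurable hg.enorm.aemeasurable hq
  have h1 : (∫⁻ y, ‖f y + g y‖ₑ ^ q ∂μ) ^ (1 / q) ≤ a + b := by
    calc (∫⁻ y, ‖f y + g y‖ₑ ^ q ∂μ) ^ (1 / q) ≤
        (∫⁻ y, (‖f y‖ₑ + ‖g y‖ₑ) ^ q ∂μ) ^ (1 / q) := by
          gcongr with y
          exact enorm_add_le _ _
      _ ≤ (∫⁻ y, ‖f y‖ₑ ^ q ∂μ) ^ (1 / q) + (∫⁻ y, ‖g y‖ₑ ^ q ∂μ) ^ (1 / q) := h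
      _ ≤ (a ^ q) ^ (1 / q) + (b ^ q) ^ (1 / q) := by gcongr
      _ = a + b := by
          rw [← ENNReal.rpow_mul, ← ENNReal.rpow_mul, mul_one_div_cancel hq0.ne',
            ENNReal.rpow_one, ENNReal.rpow_one]
  calc ∫⁻ y, ‖f y + g y‖ₑ ^ q ∂μ = ((∫⁻ y, ‖f y + g y‖ₑ ^ q ∂μ) ^ (1 / q)) ^ q := by
        rw [← ENNReal.rpow_mul, one_div_mul_cancel hq0.ne', ENNReal.rpow_one]
    _ ≤ _ := ENNReal.rpow_le_rpow h1 hq0.le

/-- **the slice estimate** -/
theorem slice (hG : GauAll) (hT : TrapStm) (hM : MainStm) (hL : LayStm) (hP : ParsStm) :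
    SliceStm := by
  intro m q δ ε hm hq hδ0 hε
  have hm0 : (1 : ℝ) ≤ m := by exact_mod_cast hm
  have hq0 : 0 < q := by linarith
  set σ : ℝ := m * (1 / 2 - 1 / q) with hσ
  have hσq : σ * q = m * ((q - 2) / 2) := by
    rw [hσ]
    field_simp
  set ε1 : ℝ := min 1 (ε / (2 * (m * (m + 1)))) with hε1
  have hmm : (0 : ℝ) < 2 * (m * (m + 1)) := by positivity
  have hε10 : 0 < ε1 := by
    rw [hε1]
    exact lt_min one_pos (by positivity)
  have hε11 : ε1 ≤ 1 := min_le_left _ _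
  have hε12 : ((m : ℝ) + 1) * ε1 * m ≤ ε / 2 := by
    have h1 : ε1 ≤ ε / (2 * (m * (m + 1))) := min_le_right _ _
    rw [le_div_iff₀ hmm] at h1
    nlinarith
  obtain ⟨CG, hCG⟩ := hG m q δ hq hδ0
  obtain ⟨CT, hCT⟩ := hT ε1 hε10 hε11
  obtain ⟨CL, hCL⟩ := hL m
  -- the constants
  set c1 : ℝ := 2 * ((1 + m) / ε1) with hc1
  have hc10 : 0 < c1 := by positivity
  set C1 : ℝ≥0∞ := (ENNReal.ofReal c1 * CT * 2) ^ m * CG with hC1
  set C2 : ℝ≥0∞ := ((CL * 2 * 2 ^ m : ℝ≥0∞) ^ ((q - 2) / 2) * (4 * 2 ^ m)) ^ (1 / q) with hC2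
  have hC1t : C1 ≠ ∞ := by
    apply ENNReal.mul_ne_top _ ENNReal.coe_ne_top
    apply ENNReal.pow_ne_top
    apply ENNReal.mul_ne_top _ (by norm_num)
    exact ENNReal.mul_ne_top ENNReal.ofReal_ne_top ENNReal.coe_ne_top
  have hC2t : C2 ≠ ∞ := by
    apply ENNReal.rpow_ne_top_of_nonneg (by positivity)
    apply ENNReal.mul_ne_top
    · apply ENNReal.rpow_ne_top_of_nonneg (by linarith)
      apply ENNReal.mul_ne_top _ (ENNReal.pow_ne_top (by norm_num))
      exact ENNReal.mul_ne_top ENNReal.coe_ne_top (by norm_num)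
    · exact ENNReal.mul_ne_top (by norm_num) (ENNReal.pow_ne_top (by norm_num))
  refine ⟨(C1 + C2).toNNReal, ?_⟩
  intro Λ K hK hLam t ht S c hS
  rw [ENNReal.coe_toNNReal (ENNReal.add_ne_top.mpr ⟨hC1t, hC2t⟩)]
  set T : ℝ := |t| with hTd
  have hT0 : 0 < T := by linarith
  have hTm : (1 : ℝ) ≤ T ^ (m : ℝ) := Real.one_le_rpow ht (by positivity)
  have hKe : (1 : ℝ≥0∞) ≤ K := by exact_mod_cast hK
  -- the parameters
  set ρ : ℝ := T ^ (-(m : ℝ)) / 2 with hρ
  have hTmi : T ^ (-(m : ℝ)) ≤ 1 := Real.rpow_le_one_of_one_le_of_nonpos ht (by linarith)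
  have hTmp : 0 < T ^ (-(m : ℝ)) := Real.rpow_pos_of_pos hT0 _
  have hρ0 : 0 < ρ := by positivity
  have hρ1 : ρ ≤ 1 / 2 := by rw [hρ]; linarith
  have hlog : 0 ≤ Real.log T := Real.log_nonneg ht
  set A : ℝ := 1 + m * Real.log T with hA
  have hA1 : 1 ≤ A := by
    rw [hA]
    have : 0 ≤ (m : ℝ) * Real.log T := by positivity
    linarith
  obtain ⟨H, hHm, hHi, hHn, hH1, hH0, hHb⟩ := hCT ρ hρ0 hρ1
  obtain ⟨hcm, hcb, hc0, hce⟩ := hCL H ρ A hHi hρ0 hρ1 hA1 hH1 hH0 hHb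
  -- the main term
  have hmain : ∫⁻ y : Fin m → ℝ, ‖∫ v : Fin m → ℝ, cut H A v * trig S c v * em y t v‖ₑ ^ q ≤
      (C1 * K * ENNReal.ofReal (T ^ (δ + ε - σ)) * l2 S c) ^ q := by
    refine (hM m q H A t S c _ (by linarith) hHm hHi (by linarith)
      (fun a => hCG Λ K hLam t ht S c hS a)).trans ?_
    rw [← ENNReal.mul_rpow_of_nonneg _ _ hq0.le]
    apply ENNReal.rpow_le_rpow _ hq0.le
    have h1 : ENNReal.ofReal (2 * A) * ∫⁻ η, ‖H η‖ₑ ≤
        ENNReal.ofReal c1 * CT * 2 * ENNReal.ofReal (T ^ ((m + 1) * ε1)) := by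
      have h2 : 2 * A ≤ c1 * T ^ ε1 := by
        have h3 := Real.log_le_rpow_div hT0.le hε10
        have h4 : (1 : ℝ) ≤ T ^ ε1 / ε1 := by
          rw [le_div_iff₀ hε10, one_mul]
          exact hε11.trans (Real.one_le_rpow ht hε10.le)
        calc 2 * A ≤ 2 * (T ^ ε1 / ε1 + m * (T ^ ε1 / ε1)) := by
              rw [hA]
              gcongr
          _ = c1 * T ^ ε1 := by
              rw [hc1]
              ring
      have h5 : ρ ^ (-ε1) ≤ 2 * T ^ (m * ε1) := by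
        rw [hρ, Real.div_rpow hTmp.le (by norm_num), ← Real.rpow_mul hT0.le]
        have e1 : -(m : ℝ) * -ε1 = m * ε1 := by ring
        rw [e1, Real.rpow_neg (by norm_num : (0 : ℝ) ≤ 2), div_inv_eq_mul, mul_comm]
        gcongr
        calc (2 : ℝ) ^ ε1 ≤ 2 ^ (1 : ℝ) := Real.rpow_le_rpow_of_exponent_le (by norm_num) hε11
          _ = 2 := Real.rpow_one 2
      calc ENNReal.ofReal (2 * A) * ∫⁻ η, ‖H η‖ₑ ≤
          ENNReal.ofReal (c1 * T ^ ε1) * (CT * ENNReal.ofReal (2 * T ^ (m * ε1))) := by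
            gcongr
            refine hHn.trans ?_
            gcongr
        _ = ENNReal.ofReal c1 * CT * 2 * (ENNReal.ofReal (T ^ ε1) *
            ENNReal.ofReal (T ^ (m * ε1))) := by
            have k1 : ENNReal.ofReal (2 * T ^ (m * ε1)) = 2 * ENNReal.ofReal (T ^ (m * ε1)) := by
              rw [ENNReal.ofReal_mul (by norm_num : (0 : ℝ) ≤ 2)]
              norm_num
            rw [ENNReal.ofReal_mul hc10.le, k1]
            ring
        _ = _ := by
            rw [← ENNReal.ofReal_mul (by positivity), ← Real.rpow_add hT0]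
            congr 3
            ring
    calc (ENNReal.ofReal (2 * A) * ∫⁻ η, ‖H η‖ₑ) ^ m *
          (CG * K * ENNReal.ofReal (T ^ (δ - σ)) * l2 S c) ≤
        (ENNReal.ofReal c1 * CT * 2 * ENNReal.ofReal (T ^ ((m + 1) * ε1))) ^ m *
          (CG * K * ENNReal.ofReal (T ^ (δ - σ)) * l2 S c) := by
          gcongr
      _ = C1 * K * (ENNReal.ofReal (T ^ ((m + 1) * ε1 * m)) * ENNReal.ofReal (T ^ (δ - σ))) *
          l2 S c := by
          rw [mul_pow, ← ENNReal.ofReal_pow (by positivity), ← Real.rpow_mul_natCast hT0.le, hC1]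
          ring
      _ ≤ C1 * K * ENNReal.ofReal (T ^ (δ + ε - σ)) * l2 S c := by
          rw [← ENNReal.ofReal_mul (by positivity), ← Real.rpow_add hT0]
          gcongr
          linarith
  -- the error term
  have herr : ∫⁻ y : Fin m → ℝ, ‖∫ v, (CB m).indicator (fun v => (1 - cut H A v) * trig S c v) v *
      em y t v‖ₑ ^ q ≤ (C2 * K * ENNReal.ofReal (T ^ (δ + ε - σ)) * l2 S c) ^ q := by
    have hE : ∫⁻ v in CB m, ‖1 - cut H A v‖ₑ ^ 2 ≤ CL * 2 * ENNReal.ofReal (T ^ (-(m : ℝ))) := by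
      refine hce.trans ?_
      have e1 : Real.exp (-(A - 1)) = T ^ (-(m : ℝ)) := by
        rw [Real.rpow_def_of_pos hT0, hA]
        congr 1
        ring
      rw [e1]
      calc (CL : ℝ≥0∞) * (ENNReal.ofReal ρ + ENNReal.ofReal (T ^ (-(m : ℝ)))) ≤
          CL * (ENNReal.ofReal (T ^ (-(m : ℝ))) + ENNReal.ofReal (T ^ (-(m : ℝ)))) := by
            gcongr
            rw [hρ]
            linarith
        _ = _ := by ring
    refine (err_slice hP m q hq (fun v => 1 - cut H A v) (measurable_const.sub hcm)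
      (fun v => by
        calc ‖1 - cut H A v‖ ≤ ‖(1 : ℂ)‖ + ‖cut H A v‖ := norm_sub_le _ _
          _ ≤ 1 + 1 := by
              rw [norm_one]
              gcongr
              exact hcb v
          _ = 2 := by norm_num) _ hE t S c).trans ?_
    have e2 : (CL * 2 * ENNReal.ofReal (T ^ (-(m : ℝ))) * 2 ^ m) ^ ((q - 2) / 2) *
        (4 * 2 ^ m) * l2 S c ^ q =
        (((CL * 2 * 2 ^ m : ℝ≥0∞) ^ ((q - 2) / 2) * (4 * 2 ^ m)) *
          ENNReal.ofReal (T ^ (-(m : ℝ))) ^ ((q - 2) / 2)) * l2 S c ^ q := by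
      rw [show (CL * 2 * ENNReal.ofReal (T ^ (-(m : ℝ))) * 2 ^ m : ℝ≥0∞) =
        (CL * 2 * 2 ^ m) * ENNReal.ofReal (T ^ (-(m : ℝ))) by ring,
        ENNReal.mul_rpow_of_nonneg _ _ (by linarith)]
      ring
    rw [e2]
    have e3 : ENNReal.ofReal (T ^ (-(m : ℝ))) ^ ((q - 2) / 2) =
        ENNReal.ofReal (T ^ (-σ)) ^ q := by
      rw [ENNReal.ofReal_rpow_of_nonneg hTmp.le (by linarith),
        ENNReal.ofReal_rpow_of_nonneg (by positivity) hq0.le, ← Real.rpow_mul hT0.le,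
        ← Real.rpow_mul hT0.le]
      congr 2
      rw [neg_mul, neg_mul, hσq]
    have e4 : (CL * 2 * 2 ^ m : ℝ≥0∞) ^ ((q - 2) / 2) * (4 * 2 ^ m) = C2 ^ q := by
      rw [hC2, ← ENNReal.rpow_mul, one_div_mul_cancel hq0.ne', ENNReal.rpow_one]
    rw [e3, e4, ← ENNReal.mul_rpow_of_nonneg _ _ hq0.le, ← ENNReal.mul_rpow_of_nonneg _ _ hq0.le]
    apply ENNReal.rpow_le_rpow _ hq0.le
    have h6 : ENNReal.ofReal (T ^ (-σ)) ≤ K * ENNReal.ofReal (T ^ (δ + ε - σ)) := by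
      calc ENNReal.ofReal (T ^ (-σ)) ≤ ENNReal.ofReal (T ^ (δ + ε - σ)) := by
            gcongr
            linarith
        _ = 1 * ENNReal.ofReal (T ^ (δ + ε - σ)) := (one_mul _).symm
        _ ≤ _ := by gcongr
    calc C2 * ENNReal.ofReal (T ^ (-σ)) * l2 S c ≤
        C2 * (K * ENNReal.ofReal (T ^ (δ + ε - σ))) * l2 S c := by gcongr
      _ = _ := by ring
  -- together
  have hfun : ∀ y : Fin m → ℝ, ∫ v in CB m, trig S c v * em y t v =
      (∫ v, cut H A v * trig S c v * em y t v) +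
      ∫ v, (CB m).indicator (fun v => (1 - cut H A v) * trig S c v) v * em y t v := fun y =>
    split_int _ hcm hcb (hc0 hm) S c y t
  simp only [hfun]
  refine (lp_add volume q (by linarith) _ _
    (tr_meas (fun v => cut H A v * trig S c v) (hcm.mul (trig_meas S c)) t)
    (tr_meas ((CB m).indicator (fun v => (1 - cut H A v) * trig S c v))
      (((measurable_const.sub hcm).mul (trig_meas S c)).indicator CB_meas) t) _ _
    hmain herr).trans (le_of_eq ?_)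
  congr 1
  ring

end Pool.Agent.W786.Ls
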