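import Mathlib
import Pool.Agent.W786.Ls.Sl2
set_option autoImplicit false

/-! The estimate of a time slice for general functions. -/

namespace Pool.Agent.W786.Ls

open MeasureTheory Set Complex Filter
open scoped ENNReal NNReal Topology

variable {m : ℕ}

/-- the frequencies of `g` lie in `Λ` -/
def Spec (Λ : Set (Fin m → ℤ)) (g : (Fin m → ℝ) → ℂ) : Prop :=
  ∀ k, k ∉ Λ → ∫ v in CB m, g v * (starRingEnd ℂ) (ek k v) = 0

instance finCB : IsFiniteMeasure (volume.restrict (CB m)) := ⟨by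
  rw [Measure.restrict_apply_univ, CB_vol]
  exact ENNReal.pow_lt_top (by norm_num)⟩

lemma memLp_of (g : (Fin m → ℝ) → ℂ) (hg : Measurable g) (h2 : ∫⁻ v in CB m, ‖g v‖ₑ ^ 2 ≠ ∞) :
    MemLp g 2 (volume.restrict (CB m)) := by
  refine ⟨hg.aestronglyMeasurable, ?_⟩
  rw [eLpNorm_lt_top_iff_lintegral_rpow_enorm_lt_top (by norm_num) (by norm_num)]
  simp only [ENNReal.toReal_ofNat, ENNReal.rpow_ofNat]
  exact lt_top_iff_ne_top.mpr h2

lemma tr_eq (g : (Fin m → ℝ) → ℂ) (y : Fin m → ℝ) (t : ℝ) :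
    ∫ v in CB m, g v * em y t v = ∫ v, (CB m).indicator g v * em y t v := by
  rw [← integral_indicator CB_meas]
  congr 1
  ext v
  by_cases hv : v ∈ CB m
  · rw [indicator_of_mem hv, indicator_of_mem hv]
  · rw [indicator_of_notMem hv, indicator_of_notMem hv, zero_mul]

lemma tr_meas' (g : (Fin m → ℝ) → ℂ) (hg : Measurable g) (t : ℝ) :
    Measurable (fun y : Fin m → ℝ => ∫ v in CB m, g v * em y t v) := by
  simp only [tr_eq]
  exact tr_meas _ (hg.indicator CB_meas) t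

lemma cs_CB (g : (Fin m → ℝ) → ℂ) (hg : Measurable g) :
    (∫⁻ v in CB m, ‖g v‖ₑ) ^ 2 ≤ 2 ^ m * ∫⁻ v in CB m, ‖g v‖ₑ ^ 2 := by
  have h := cs_lint (volume.restrict (CB m)) (fun _ => 1) (fun v => ‖g v‖ₑ) aemeasurable_const
    hg.enorm.aemeasurable
  simpa [CB_vol] using h

/-- small times -/
lemma small (g : (Fin m → ℝ) → ℂ) (hg : Measurable g) (h2 : ∫⁻ v in CB m, ‖g v‖ₑ ^ 2 ≠ ∞)
    (q t : ℝ) (hq : 2 ≤ q) :
    ∫⁻ y : Fin m → ℝ, ‖∫ v in CB m, g v * em y t v‖ₑ ^ q ≤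
      (2 ^ m : ℝ≥0∞) ^ ((q - 2) / 2) * ((∫⁻ v in CB m, ‖g v‖ₑ ^ 2) ^ (1 / 2 : ℝ)) ^ q := by
  have hM := memLp_of g hg h2
  have k1 : Integrable ((CB m).indicator g) :=
    (integrable_indicator_iff CB_meas).mpr (hM.integrable (by norm_num))
  have k2 : MemLp ((CB m).indicator g) 2 := (memLp_indicator_iff_restrict CB_meas).mpr hM
  have e1 : ∫⁻ v, ‖(CB m).indicator g v‖ₑ = ∫⁻ v in CB m, ‖g v‖ₑ := by
    rw [← lintegral_indicator CB_meas]
    congr 1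
    ext v
    exact enorm_indicator_eq_indicator_enorm _ _
  have e2 : ∫⁻ v, ‖(CB m).indicator g v‖ₑ ^ 2 = ∫⁻ v in CB m, ‖g v‖ₑ ^ 2 := by
    rw [← lintegral_indicator CB_meas]
    congr 1
    ext v
    by_cases hv : v ∈ CB m
    · rw [indicator_of_mem hv, indicator_of_mem hv]
    · rw [indicator_of_notMem hv, indicator_of_notMem hv]
      simp
  simp only [tr_eq]
  refine (err_bd _ k1 k2 t q hq).trans ?_
  rw [e1, e2]
  set X := ∫⁻ v in CB m, ‖g v‖ₑ ^ 2 with hX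
  have e3 : (∫⁻ v in CB m, ‖g v‖ₑ) ^ (q - 2) =
      ((∫⁻ v in CB m, ‖g v‖ₑ) ^ 2) ^ ((q - 2) / 2) := by
    rw [← ENNReal.rpow_natCast, ← ENNReal.rpow_mul]
    congr 1
    push_cast
    ring
  rw [e3]
  calc ((∫⁻ v in CB m, ‖g v‖ₑ) ^ 2) ^ ((q - 2) / 2) * X ≤
      (2 ^ m * X) ^ ((q - 2) / 2) * X := by
        gcongr
        exact cs_CB g hg
    _ = (2 ^ m : ℝ≥0∞) ^ ((q - 2) / 2) * (X ^ ((q - 2) / 2) * X ^ (1 : ℝ)) := by
        rw [ENNReal.mul_rpow_of_nonneg _ _ (by linarith), ENNReal.rpow_one]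
        ring
    _ = _ := by
        rw [← ENNReal.rpow_add_of_nonneg _ _ (by linarith) (by norm_num), ← ENNReal.rpow_mul]
        congr 2
        ring

/-- large times -/
lemma sliceG (hS : SliceStm) (hA : ApxStm) (m : ℕ) (q δ ε : ℝ) (hm : 1 ≤ m) (hq : 2 ≤ q)
    (hδ : 0 ≤ δ) (hε : 0 < ε) : ∃ C : ℝ≥0, ∀ (Λ : Set (Fin m → ℤ)) (K : ℝ≥0), 1 ≤ K →
    Lam Λ q δ K → ∀ t : ℝ, 1 ≤ |t| → ∀ g : (Fin m → ℝ) → ℂ, Measurable g →
    ∫⁻ v in CB m, ‖g v‖ₑ ^ 2 ≠ ∞ → Spec Λ g →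
    ∫⁻ y : Fin m → ℝ, ‖∫ v in CB m, g v * em y t v‖ₑ ^ q ≤
      (C * K * ENNReal.ofReal (|t| ^ (δ + ε - m * (1 / 2 - 1 / q))) *
        (∫⁻ v in CB m, ‖g v‖ₑ ^ 2) ^ (1 / 2 : ℝ)) ^ q := by
  obtain ⟨C, hC⟩ := hS m q δ ε hm hq hδ hε
  have hq0 : 0 < q := by linarith
  refine ⟨C, ?_⟩
  intro Λ K hK hL t ht g hg h2 hsp
  have hap : ∀ n : ℕ, ∃ (S : Finset (Fin m → ℤ)) (c : (Fin m → ℤ) → ℂ),
      (∀ k ∈ S, ∫ v in CB m, g v * (starRingEnd ℂ) (ek k v) ≠ 0) ∧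
      2 ^ m * ∑ k ∈ S, ‖c k‖ₑ ^ 2 ≤ ∫⁻ v in CB m, ‖g v‖ₑ ^ 2 ∧
      ∫⁻ v in CB m, ‖g v - trig S c v‖ₑ ^ 2 ≤ ((n : ℝ≥0∞))⁻¹ := fun n =>
    hA m g hg h2 _ (ENNReal.inv_ne_zero.mpr (ENNReal.natCast_ne_top n))
  choose S c hSc hB hap2 using hap
  set X := ∫⁻ v in CB m, ‖g v‖ₑ ^ 2 with hX
  have hM := memLp_of g hg h2
  have hgi : Integrable g (volume.restrict (CB m)) := hM.integrable (by norm_num)
  -- the bound
  have hbd : ∀ n, ∫⁻ y : Fin m → ℝ, ‖∫ v in CB m, trig (S n) (c n) v * em y t v‖ₑ ^ q ≤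
      (C * K * ENNReal.ofReal (|t| ^ (δ + ε - m * (1 / 2 - 1 / q))) * X ^ (1 / 2 : ℝ)) ^ q := by
    intro n
    refine (hC Λ K hK hL t ht (S n) (c n) (fun k hk => ?_)).trans ?_
    · by_contra hc
      exact hSc n k hk (hsp k hc)
    · apply ENNReal.rpow_le_rpow _ hq0.le
      gcongr
      unfold l2
      apply ENNReal.rpow_le_rpow _ (by norm_num)
      calc ∑ k ∈ S n, ‖c n k‖ₑ ^ 2 = 1 * ∑ k ∈ S n, ‖c n k‖ₑ ^ 2 := (one_mul _).symm
        _ ≤ 2 ^ m * ∑ k ∈ S n, ‖c n k‖ₑ ^ 2 := by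
            gcongr
            exact one_le_pow₀ (by norm_num)
        _ ≤ X := hB n
  -- convergence
  have hconv : ∀ y : Fin m → ℝ, Tendsto (fun n => ∫ v in CB m, trig (S n) (c n) v * em y t v)
      atTop (𝓝 (∫ v in CB m, g v * em y t v)) := by
    intro y
    rw [tendsto_iff_edist_tendsto_0]
    have hti : ∀ n, Integrable (trig (S n) (c n)) (volume.restrict (CB m)) := by
      intro n
      have : g = fun v => (g v - trig (S n) (c n) v) + trig (S n) (c n) v := by ext v; ring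
      have hb : ∀ v, ‖trig (S n) (c n) v‖ ≤ ∑ k ∈ S n, ‖c n k‖ := by
        intro v
        unfold trig
        refine (norm_sum_le _ _).trans (Finset.sum_le_sum fun k _ => ?_)
        rw [norm_mul]
        have : ‖ek k v‖ = 1 := by
          unfold ek
          have e : Real.pi * I * ((∑ j, (k j : ℝ) * v j : ℝ) : ℂ) =
              ((Real.pi * ∑ j, (k j : ℝ) * v j : ℝ) : ℂ) * I := by push_cast; ring
          rw [e, Complex.norm_exp_ofReal_mul_I]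
        rw [this, mul_one]
      exact Integrable.of_bound (trig_meas _ _).aestronglyMeasurable _ (ae_of_all _ hb)
    have hmul : ∀ G : (Fin m → ℝ) → ℂ, Integrable G (volume.restrict (CB m)) →
        Integrable (fun v => G v * em y t v) (volume.restrict (CB m)) := by
      intro G hG
      refine hG.mono (hG.1.mul (em_meas y t).aestronglyMeasurable) (ae_of_all _ fun v => ?_)
      rw [norm_mul, em_norm, mul_one]
    have hle : ∀ n, edist (∫ v in CB m, trig (S n) (c n) v * em y t v)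
        (∫ v in CB m, g v * em y t v) ≤ (2 ^ m * ((n : ℝ≥0∞))⁻¹) ^ (1 / 2 : ℝ) := by
      intro n
      rw [edist_comm, edist_eq_enorm_sub, ← integral_sub (hmul _ hgi) (hmul _ (hti n))]
      have h1 : ‖∫ v in CB m, (g v * em y t v - trig (S n) (c n) v * em y t v)‖ₑ ≤
          ∫⁻ v in CB m, ‖g v - trig (S n) (c n) v‖ₑ := by
        refine (enorm_integral_le_lintegral_enorm _).trans (le_of_eq ?_)
        congr 1
        ext v
        rw [← sub_mul, enorm_mul, em_enorm, mul_one]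
      refine h1.trans ?_
      have h3 := cs_CB (fun v => g v - trig (S n) (c n) v) (hg.sub (trig_meas _ _))
      calc ∫⁻ v in CB m, ‖g v - trig (S n) (c n) v‖ₑ =
          ((∫⁻ v in CB m, ‖g v - trig (S n) (c n) v‖ₑ) ^ 2) ^ (1 / 2 : ℝ) := by
            rw [← ENNReal.rpow_natCast, ← ENNReal.rpow_mul]
            norm_num
        _ ≤ _ := by
            apply ENNReal.rpow_le_rpow _ (by norm_num)
            refine h3.trans ?_
            gcongr
            exact hap2 n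
    have hlim : Tendsto (fun n : ℕ => (2 ^ m * ((n : ℝ≥0∞))⁻¹) ^ (1 / 2 : ℝ)) atTop (𝓝 0) := by
      have h1 : Tendsto (fun n : ℕ => 2 ^ m * ((n : ℝ≥0∞))⁻¹) atTop (𝓝 (2 ^ m * 0)) :=
        ENNReal.Tendsto.const_mul ENNReal.tendsto_inv_nat_nhds_zero
          (Or.inr (ENNReal.pow_ne_top (by norm_num)))
      rw [mul_zero] at h1
      have h2 := (ENNReal.continuous_rpow_const (y := (1 / 2 : ℝ))).tendsto (0 : ℝ≥0∞)
      rw [ENNReal.zero_rpow_of_pos (by norm_num)] at h2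
      exact h2.comp h1
    exact tendsto_of_tendsto_of_tendsto_of_le_of_le tendsto_const_nhds hlim
      (fun n => zero_le) hle
  -- Fatou
  have hfat := lintegral_liminf_le (μ := (volume : Measure (Fin m → ℝ))) (u := (atTop : Filter ℕ))
    (f := fun n y => ‖∫ v in CB m, trig (S n) (c n) v * em y t v‖ₑ ^ q)
    (fun n => (tr_meas' _ (trig_meas _ _) t).enorm.pow_const q)
  have hl : ∀ y : Fin m → ℝ, liminf (fun n => ‖∫ v in CB m, trig (S n) (c n) v * em y t v‖ₑ ^ q)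
      atTop = ‖∫ v in CB m, g v * em y t v‖ₑ ^ q := by
    intro y
    apply Tendsto.liminf_eq
    have h1 := (continuous_enorm.tendsto _).comp (hconv y)
    exact ((ENNReal.continuous_rpow_const (y := q)).tendsto _).comp h1
  simp only [hl] at hfat
  refine hfat.trans ?_
  refine (liminf_le_liminf (Eventually.of_forall hbd)).trans ?_
  simp

/-- all times -/
theorem sliceAll (hS : SliceStm) (hA : ApxStm) (m : ℕ) (q δ b : ℝ) (hm : 1 ≤ m) (hq : 2 ≤ q)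
    (hδ : 0 ≤ δ) (hb0 : 0 ≤ b) (hb : b < m * (1 / 2 - 1 / q) - δ) :
    ∃ C : ℝ≥0, ∀ (Λ : Set (Fin m → ℤ)) (K : ℝ≥0), 1 ≤ K →
    Lam Λ q δ K → ∀ t : ℝ, ∀ g : (Fin m → ℝ) → ℂ, Measurable g →
    ∫⁻ v in CB m, ‖g v‖ₑ ^ 2 ≠ ∞ → Spec Λ g →
    ∫⁻ y : Fin m → ℝ, ‖∫ v in CB m, g v * em y t v‖ₑ ^ q ≤
      (C * K * ENNReal.ofReal ((1 + |t|) ^ (-b)) *
        (∫⁻ v in CB m, ‖g v‖ₑ ^ 2) ^ (1 / 2 : ℝ)) ^ q := by
  have hq0 : 0 < q := by linarith
  obtain ⟨C, hC⟩ := sliceG hS hA m q δ (m * (1 / 2 - 1 / q) - δ - b) hm hq hδ (by linarith)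
  set C0 : ℝ≥0∞ := ((2 ^ m : ℝ≥0∞) ^ ((q - 2) / 2)) ^ (1 / q) with hC0
  have hC0t : C0 ≠ ∞ := by
    apply ENNReal.rpow_ne_top_of_nonneg (by positivity)
    exact ENNReal.rpow_ne_top_of_nonneg (by linarith) (ENNReal.pow_ne_top (by norm_num))
  set D : ℝ≥0∞ := (C + C0) * ENNReal.ofReal (2 ^ b) with hD
  have hDt : D ≠ ∞ := ENNReal.mul_ne_top (ENNReal.add_ne_top.mpr ⟨ENNReal.coe_ne_top, hC0t⟩)
    ENNReal.ofReal_ne_top
  refine ⟨D.toNNReal, ?_⟩
  intro Λ K hK hL t g hg h2 hsp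
  rw [ENNReal.coe_toNNReal hDt]
  have hKe : (1 : ℝ≥0∞) ≤ K := by exact_mod_cast hK
  set Y := (∫⁻ v in CB m, ‖g v‖ₑ ^ 2) ^ (1 / 2 : ℝ) with hY
  have ht1 : 0 < 1 + |t| := by positivity
  by_cases ht : 1 ≤ |t|
  · refine (hC Λ K hK hL t ht g hg h2 hsp).trans ?_
    apply ENNReal.rpow_le_rpow _ hq0.le
    have e1 : |t| ^ (δ + (m * (1 / 2 - 1 / q) - δ - b) - m * (1 / 2 - 1 / q)) ≤
        2 ^ b * (1 + |t|) ^ (-b) := by
      have e2 : δ + ((m : ℝ) * (1 / 2 - 1 / q) - δ - b) - m * (1 / 2 - 1 / q) = -b := by ring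
      have ht0 : 0 < |t| := by linarith
      rw [e2, Real.rpow_neg ht0.le, Real.rpow_neg ht1.le, ← div_eq_mul_inv, ← Real.div_rpow
        (by norm_num) ht1.le, ← Real.inv_rpow ht0.le]
      apply Real.rpow_le_rpow (by positivity) _ hb0
      rw [inv_eq_one_div, div_le_div_iff₀ ht0 ht1]
      linarith
    calc C * K * ENNReal.ofReal (|t| ^ (δ + (m * (1 / 2 - 1 / q) - δ - b) - m * (1 / 2 - 1 / q))) * Y ≤
        C * K * ENNReal.ofReal (2 ^ b * (1 + |t|) ^ (-b)) * Y := by gcongr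
      _ = C * K * (ENNReal.ofReal (2 ^ b) * ENNReal.ofReal ((1 + |t|) ^ (-b))) * Y := by
          rw [ENNReal.ofReal_mul (by positivity)]
      _ ≤ (C + C0) * K * (ENNReal.ofReal (2 ^ b) * ENNReal.ofReal ((1 + |t|) ^ (-b))) * Y := by
          gcongr
          exact le_self_add
      _ = _ := by rw [hD]; ring
  · push Not at ht
    refine (small g hg h2 q t hq).trans ?_
    have e1 : (2 ^ m : ℝ≥0∞) ^ ((q - 2) / 2) = C0 ^ q := by
      rw [hC0, ← ENNReal.rpow_mul, one_div_mul_cancel hq0.ne', ENNReal.rpow_one]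
    rw [e1, ← ENNReal.mul_rpow_of_nonneg _ _ hq0.le]
    apply ENNReal.rpow_le_rpow _ hq0.le
    have e2 : (1 : ℝ) ≤ 2 ^ b * (1 + |t|) ^ (-b) := by
      rw [Real.rpow_neg ht1.le, ← div_eq_mul_inv, ← Real.div_rpow (by norm_num) ht1.le]
      apply Real.one_le_rpow _ hb0
      rw [le_div_iff₀ ht1]
      linarith
    calc C0 * Y = C0 * 1 * 1 * Y := by ring
      _ ≤ (C + C0) * K * ENNReal.ofReal (2 ^ b * (1 + |t|) ^ (-b)) * Y := by
          gcongr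
          · exact le_add_self
          · rw [← ENNReal.ofReal_one]
            exact ENNReal.ofReal_le_ofReal e2
      _ = _ := by
          rw [hD, ENNReal.ofReal_mul (by positivity)]
          ring

end Pool.Agent.W786.Ls
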