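import Mathlib
import Pool.Agent.W786.Ls.Sl3
import Pool.Agent.W771.MK
set_option autoImplicit false

/-! Integration in time: frequencies in all variables, and one rough variable. -/

namespace Pool.Agent.W786.Ls

open MeasureTheory Set Complex Filter
open scoped ENNReal NNReal Topology

variable {m : ℕ}

lemma time_fin (a : ℝ) (ha : 1 < a) :
    ∫⁻ t : ℝ, ENNReal.ofReal ((1 + |t|) ^ (-a)) ≠ ∞ := by
  have h := integrable_one_add_norm (E := ℝ) (μ := volume) (r := a) (by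
    rw [Module.finrank_self]
    exact_mod_cast ha)
  have h2 := h.lintegral_lt_top
  simpa [Real.norm_eq_abs] using h2.ne

/-- **all variables** -/
theorem allVars (hS : SliceStm) (hA : ApxStm) (n : ℕ) (q δ : ℝ) (hn : 1 ≤ n) (hq2 : 2 < q)
    (hδ : 0 ≤ δ) (hqδ : q * δ < n * (q / 2 - 1) - 1) : ∃ C : ℝ≥0,
    ∀ (Λ : Set (Fin n → ℤ)) (K : ℝ≥0), 1 ≤ K → Lam Λ q δ K →
    ∀ g : (Fin n → ℝ) → ℂ, Measurable g → ∫⁻ v in CB n, ‖g v‖ₑ ^ 2 ≠ ∞ → Spec Λ g →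
    ∫⁻ t : ℝ, ∫⁻ y : Fin n → ℝ, ‖∫ v in CB n, g v * em y t v‖ₑ ^ q ≤
      (C * K * (∫⁻ v in CB n, ‖g v‖ₑ ^ 2) ^ (1 / 2 : ℝ)) ^ q := by
  have hn0 : (1 : ℝ) ≤ n := by exact_mod_cast hn
  have hq0 : 0 < q := by linarith
  set σ : ℝ := n * (1 / 2 - 1 / q) - δ with hσ
  have hσq : q * σ = n * (q / 2 - 1) - q * δ := by
    rw [hσ]
    field_simp
  have hσ1 : 1 < q * σ := by
    rw [hσq]
    linarith
  set b : ℝ := (σ + 1 / q) / 2 with hb
  have hqq : q * (1 / q) = 1 := mul_one_div_cancel hq0.ne'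
  have hbq : 1 < q * b := by
    rw [hb]
    nlinarith
  have hbσ : b < σ := by
    have : 1 / q < σ := by
      rw [div_lt_iff₀ hq0]
      linarith
    rw [hb]
    linarith
  have hb0 : 0 ≤ b := by
    by_contra hc
    push Not at hc
    nlinarith
  obtain ⟨C, hC⟩ := sliceAll hS hA n q δ b hn hq2.le hδ hb0 hbσ
  have hfin := time_fin (q * b) hbq
  set J : ℝ≥0∞ := ∫⁻ t : ℝ, ENNReal.ofReal ((1 + |t|) ^ (-(q * b))) with hJ
  have hDt : (C : ℝ≥0∞) * J ^ (1 / q) ≠ ∞ :=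
    ENNReal.mul_ne_top ENNReal.coe_ne_top (ENNReal.rpow_ne_top_of_nonneg (by positivity) hfin)
  refine ⟨((C : ℝ≥0∞) * J ^ (1 / q)).toNNReal, ?_⟩
  intro Λ K hK hL g hg h2 hsp
  rw [ENNReal.coe_toNNReal hDt]
  set Y := (∫⁻ v in CB n, ‖g v‖ₑ ^ 2) ^ (1 / 2 : ℝ) with hY
  have hYt : Y ≠ ∞ := ENNReal.rpow_ne_top_of_nonneg (by norm_num) h2
  calc ∫⁻ t : ℝ, ∫⁻ y : Fin n → ℝ, ‖∫ v in CB n, g v * em y t v‖ₑ ^ q ≤
      ∫⁻ t : ℝ, (C * K * Y) ^ q * ENNReal.ofReal ((1 + |t|) ^ (-(q * b))) := by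
        apply lintegral_mono
        intro t
        simp only
        refine (hC Λ K hK hL t g hg h2 hsp).trans (le_of_eq ?_)
        rw [← hY, mul_right_comm, ENNReal.mul_rpow_of_nonneg _ _ hq0.le]
        congr 1
        rw [ENNReal.ofReal_rpow_of_nonneg (by positivity) hq0.le, ← Real.rpow_mul (by positivity)]
        congr 2
        ring
    _ = (C * K * Y) ^ q * J := by
        rw [lintegral_const_mul' _ _ (ENNReal.rpow_ne_top_of_nonneg hq0.le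
          (ENNReal.mul_ne_top (ENNReal.mul_ne_top ENNReal.coe_ne_top ENNReal.coe_ne_top) hYt))]
    _ = (C * K * Y) ^ q * (J ^ (1 / q)) ^ q := by
        rw [← ENNReal.rpow_mul, one_div_mul_cancel hq0.ne', ENNReal.rpow_one]
    _ = _ := by
        rw [← ENNReal.mul_rpow_of_nonneg _ _ hq0.le]
        congr 1
        ring

open Pool.Agent.W771 Pool.Agent.W771.MD

/-- the integral over `u` preserves the frequencies -/
lemma spec_E1 (Λ : Set (Fin m → ℤ)) (F : ℝ → (Fin m → ℝ) → ℂ)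
    (hi : Integrable (Function.uncurry F) (volume.prod (nuC m)))
    (hsp : ∀ k, k ∉ Λ → ∀ᵐ u : ℝ, ∫ v in CB m, F u v * (starRingEnd ℂ) (ek k v) = 0) (X T : ℝ) :
    Spec Λ (E1 F X T) := by
  intro k hk
  have hm : Measurable (fun v : Fin m → ℝ => (starRingEnd ℂ) (ek k v)) := by
    apply Continuous.measurable
    unfold ek
    fun_prop
  have hb : ∀ v : Fin m → ℝ, ‖(starRingEnd ℂ) (ek k v)‖ ≤ 1 := by
    intro v
    rw [RCLike.norm_conj]
    unfold ek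
    have e : Real.pi * I * ((∑ j, (k j : ℝ) * v j : ℝ) : ℂ) =
        ((Real.pi * ∑ j, (k j : ℝ) * v j : ℝ) : ℂ) * I := by push_cast; ring
    rw [e, Complex.norm_exp_ofReal_mul_I]
  have h1 := LL_eq1 F hi X T (fun v => (starRingEnd ℂ) (ek k v)) hm hb
  have h2 := LL_eq2 F hi X T (fun v => (starRingEnd ℂ) (ek k v)) hm hb
  rw [CB_eq, ← h1, h2]
  apply integral_eq_zero_of_ae
  filter_upwards [hsp k hk] with u hu
  rw [CB_eq] at hu
  simp only [hu, mul_zero, Pi.zero_apply]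

/-- **one rough variable** -/
theorem roughLL (hS : SliceStm) (hA : ApxStm) (hm : 1 ≤ m) (q δ p : ℝ) (hq2 : 2 < q)
    (hδ : 0 ≤ δ) (hqδ : (m + 1) * (q * δ) < m * ((m + 1) * (q / 2 - 1) - 1)) (hp2 : 2 ≤ p)
    (hp : (m + 1) * q < p * ((m + 1) * (q - 1) - 2)) : ∃ C : ℝ≥0,
    ∀ (Λ : Set (Fin m → ℤ)) (K : ℝ≥0), 1 ≤ K → Lam Λ q δ K →
    ∀ F : ℝ → (Fin m → ℝ) → ℂ, Measurable (Function.uncurry F) →
    (∀ u, u ∉ II → ∀ v, F u v = 0) →
    (∀ k, k ∉ Λ → ∀ᵐ u : ℝ, ∫ v in CB m, F u v * (starRingEnd ℂ) (ek k v) = 0) →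
    ∀ A : ℝ≥0, A ≠ 0 → (∫⁻ u in II, N2 (nuC m) F u ^ (p / 2) ≤ A ^ p) →
    ∫⁻ t : ℝ, ∫⁻ x : ℝ, ∫⁻ y, ‖LL F (-4 * Real.pi * x) (-8 * Real.pi * t)
      (Pool.Agent.W771.MD.em y t)‖ₑ ^ q ≤ (C * K * A) ^ q := by
  have hm0 : (1 : ℝ) ≤ m := by exact_mod_cast hm
  have hq0 : 0 < q := by linarith
  set σ : ℝ := m * (1 / 2 - 1 / q) - δ with hσ
  have hσq : q * σ = m * (q / 2 - 1) - q * δ := by
    rw [hσ]
    field_simp
  -- the decay exponent
  set κ : ℝ := (m + 1) * (q * σ) / m - 1 with hκ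
  have hκ0 : 0 < κ := by
    rw [hκ, hσq, sub_pos, lt_div_iff₀ (by linarith)]
    nlinarith
  set b : ℝ := (1 + κ / 2) * m / ((m + 1) * q) with hb
  have hb0 : 0 ≤ b := by positivity
  have hqb : q * b * ((m + 1) / m) = 1 + κ / 2 := by
    rw [hb]
    field_simp
  have hbσ : b < σ := by
    have h1 : q * σ * ((m + 1) / m) = 1 + κ := by
      rw [hκ]
      field_simp
      ring
    have h2 : q * b * ((m + 1) / m) < q * σ * ((m + 1) / m) := by
      rw [hqb, h1]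
      linarith
    have h3 : 0 < ((m : ℝ) + 1) / m := by positivity
    have h4 := lt_of_mul_lt_mul_right h2 h3.le
    exact lt_of_mul_lt_mul_left h4 hq0.le
  have hq1 : 0 < (m : ℝ) * ((m + 1) * (q / 2 - 1) - 1) :=
    lt_of_le_of_lt (by positivity) hqδ
  have hq1' : 0 < ((m : ℝ) + 1) * (q / 2 - 1) - 1 := by
    by_contra hc
    push Not at hc
    nlinarith
  obtain ⟨C1, hC1⟩ := sliceAll hS hA m q δ b hm hq2.le hδ hb0 hbσ
  obtain ⟨C2, hC2⟩ := oneVar_hom (m + 1) (by omega) q p (by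
      push_cast
      linarith) (by linarith)
    (by push_cast; linarith)
  have hfin := time_fin (1 + κ / 2) (by linarith)
  set J : ℝ≥0∞ := ∫⁻ t : ℝ, ENNReal.ofReal ((1 + |t|) ^ (-(1 + κ / 2))) with hJ
  set D : ℝ≥0∞ := C1 ^ q * (J ^ ((m : ℝ) / (m + 1)) * (C2 : ℝ≥0∞) ^ (1 / ((m : ℝ) + 1))) with hD
  have hDt : D ^ (1 / q) ≠ ∞ := by
    apply ENNReal.rpow_ne_top_of_nonneg (by positivity)
    apply ENNReal.mul_ne_top
    · exact ENNReal.rpow_ne_top_of_nonneg hq0.le ENNReal.coe_ne_top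
    · exact ENNReal.mul_ne_top (ENNReal.rpow_ne_top_of_nonneg (by positivity) hfin)
        (ENNReal.rpow_ne_top_of_nonneg (by positivity) ENNReal.coe_ne_top)
  refine ⟨(D ^ (1 / q)).toNNReal, ?_⟩
  intro Λ K hK hL F hF hz hsp A hA0 hN
  rw [ENNReal.coe_toNNReal hDt]
  have hRN : ∫⁻ u, N2 (nuC m) F u ≠ ∞ :=
    ne_top_of_le_ne_top (ENNReal.rpow_ne_top_of_nonneg (by norm_num) ENNReal.coe_ne_top)
      (N2_of_p F hF hz p hp2 A hN)
  have hi := int_of_N2 F hF hz hRN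
  have hMt : ∀ X T, M2 (nuC m) F X T ≠ ∞ := fun X T =>
    ne_top_of_le_ne_top hRN (M2_le_N2 F hF hz X T)
  -- a slice
  have hpiece : ∀ X T t : ℝ, ∫⁻ y : Fin m → ℝ, ‖LL F X T (Pool.Agent.W771.MD.em y t)‖ₑ ^ q ≤
      ((C1 * K : ℝ≥0∞) ^ q * ENNReal.ofReal ((1 + |t|) ^ (-(q * b)))) *
        M2 (nuC m) F X T ^ (q / 2) := by
    intro X T t
    have h1 : ∀ y : Fin m → ℝ, LL F X T (Pool.Agent.W771.MD.em y t) =
        ∫ v in CB m, E1 F X T v * em y t v := fun y =>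
      LL_eq1 F hi X T (Pool.Agent.W771.MD.em y t) (Pool.Agent.W771.MD.em_meas y t)
        (fun v => (Pool.Agent.W771.MD.em_norm y t v).le)
    simp only [h1]
    refine (hC1 Λ K hK hL t (E1 F X T) (E1_meas_v F hF X T) (hMt X T)
      (spec_E1 Λ F hi hsp X T)).trans (le_of_eq ?_)
    have e1 : ∫⁻ v in CB m, ‖E1 F X T v‖ₑ ^ 2 = M2 (nuC m) F X T := rfl
    rw [e1, ENNReal.mul_rpow_of_nonneg _ _ hq0.le, ENNReal.mul_rpow_of_nonneg _ _ hq0.le]
    congr 1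
    · congr 1
      rw [ENNReal.ofReal_rpow_of_nonneg (by positivity) hq0.le, ← Real.rpow_mul (by positivity)]
      congr 2
      ring
    · rw [← ENNReal.rpow_mul]
      congr 1
      ring
  -- notation
  set V : ℝ → ℝ≥0∞ := fun t => (C1 * K : ℝ≥0∞) ^ q * ENNReal.ofReal ((1 + |t|) ^ (-(q * b)))
    with hV
  have hCKt : (C1 * K : ℝ≥0∞) ^ q ≠ ∞ :=
    ENNReal.rpow_ne_top_of_nonneg hq0.le (ENNReal.mul_ne_top ENNReal.coe_ne_top ENNReal.coe_ne_top)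
  have hVm : Measurable V := by
    apply Measurable.const_mul
    apply ENNReal.measurable_ofReal.comp
    exact (measurable_const.add measurable_norm).pow_const _
  have hVt : ∀ t, V t ≠ ∞ := fun t => ENNReal.mul_ne_top hCKt ENNReal.ofReal_ne_top
  have hmeas : Measurable (fun w : ℝ × ℝ =>
      M2 (nuC m) F (-4 * Real.pi * w.1) (-8 * Real.pi * w.2) ^ (q / 2)) := by
    have h1 := M2_meas (nuC m) F hF
    have h2 : Measurable (fun w : ℝ × ℝ => (-4 * Real.pi * w.1, -8 * Real.pi * w.2)) :=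
      (measurable_fst.const_mul _).prodMk (measurable_snd.const_mul _)
    exact (Measurable.comp h1 h2).pow_const _
  set Z : ℝ → ℝ≥0∞ := fun t =>
    ∫⁻ x : ℝ, M2 (nuC m) F (-4 * Real.pi * x) (-8 * Real.pi * t) ^ (q / 2) with hZ
  have hZm : Measurable Z := Measurable.lintegral_prod_left' hmeas
  have e1 : ((m + 1 : ℕ) : ℝ) / ((m + 1 : ℕ) - 1) = ((m : ℝ) + 1) / m := by
    push_cast
    ring
  have e2 : (((m + 1 : ℕ) : ℝ) - 1) / ((m + 1 : ℕ)) = (m : ℝ) / (m + 1) := by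
    push_cast
    ring
  have e3 : 1 / ((m + 1 : ℕ) : ℝ) = 1 / ((m : ℝ) + 1) := by push_cast; ring
  have hVI : ∫⁻ t, V t ^ (((m : ℝ) + 1) / m) =
      ((C1 * K : ℝ≥0∞) ^ q) ^ (((m : ℝ) + 1) / m) * J := by
    have hh : ∀ t, V t ^ (((m : ℝ) + 1) / m) = ((C1 * K : ℝ≥0∞) ^ q) ^ (((m : ℝ) + 1) / m) *
        ENNReal.ofReal ((1 + |t|) ^ (-(1 + κ / 2))) := by
      intro t
      simp only [hV]
      rw [ENNReal.mul_rpow_of_nonneg _ _ (by positivity)]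
      congr 1
      rw [ENNReal.ofReal_rpow_of_nonneg (by positivity) (by positivity),
        ← Real.rpow_mul (by positivity)]
      congr 2
      rw [neg_mul, hqb]
    simp only [hh]
    rw [lintegral_const_mul' _ _ (ENNReal.rpow_ne_top_of_nonneg (by positivity) hCKt)]
  calc ∫⁻ t : ℝ, ∫⁻ x : ℝ, ∫⁻ y, ‖LL F (-4 * Real.pi * x) (-8 * Real.pi * t)
        (Pool.Agent.W771.MD.em y t)‖ₑ ^ q ≤
      ∫⁻ t : ℝ, ∫⁻ x : ℝ, V t * M2 (nuC m) F (-4 * Real.pi * x) (-8 * Real.pi * t) ^ (q / 2) :=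
        lintegral_mono fun t => lintegral_mono fun x => hpiece _ _ t
    _ = ∫⁻ t : ℝ, V t * Z t := by
        congr 1
        ext t
        rw [lintegral_const_mul' _ _ (hVt t)]
    _ ≤ (∫⁻ t, V t ^ (((m : ℝ) + 1) / m)) ^ ((m : ℝ) / (m + 1)) *
          (∫⁻ t : ℝ, Z t ^ (m + 1)) ^ (1 / ((m : ℝ) + 1)) := by
        have h := time_n (m + 1) (by omega) V Z hVm hZm
        rwa [e1, e2, e3] at h
    _ ≤ (((C1 * K : ℝ≥0∞) ^ q) ^ (((m : ℝ) + 1) / m) * J) ^ ((m : ℝ) / (m + 1)) *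
          (C2 * (A : ℝ≥0∞) ^ (q * ((m + 1 : ℕ) : ℝ))) ^ (1 / ((m : ℝ) + 1)) := by
        rw [hVI]
        gcongr
        exact hC2 (Fin m → ℝ) (nuC m) F hF hz A (by exact_mod_cast hA0) ENNReal.coe_ne_top hN
    _ = (C1 * K : ℝ≥0∞) ^ q * (J ^ ((m : ℝ) / (m + 1)) * (C2 : ℝ≥0∞) ^ (1 / ((m : ℝ) + 1))) *
          (A : ℝ≥0∞) ^ q := by
        generalize (C1 * K : ℝ≥0∞) ^ q = P
        rw [ENNReal.mul_rpow_of_nonneg _ _ (by positivity),
          ENNReal.mul_rpow_of_nonneg _ _ (by positivity), ← ENNReal.rpow_mul, ← ENNReal.rpow_mul]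
        have k1 : ((m : ℝ) + 1) / m * (m / (m + 1)) = 1 := by field_simp
        have k2 : q * ((m + 1 : ℕ) : ℝ) * (1 / ((m : ℝ) + 1)) = q := by
          push_cast
          field_simp
        rw [k1, k2, ENNReal.rpow_one]
        ring
    _ = (D ^ (1 / q)) ^ q * (K : ℝ≥0∞) ^ q * (A : ℝ≥0∞) ^ q := by
        rw [← ENNReal.rpow_mul D, one_div_mul_cancel hq0.ne', ENNReal.rpow_one, hD,
          ENNReal.mul_rpow_of_nonneg _ _ hq0.le]
        ring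
    _ = _ := by
        rw [← ENNReal.mul_rpow_of_nonneg _ _ hq0.le, ← ENNReal.mul_rpow_of_nonneg _ _ hq0.le]

end Pool.Agent.W786.Ls
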