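import Mathlib
import Pool.Agent.W786.Ls.Sl4
set_option autoImplicit false

/-! Conversion to the extension operator of the paraboloid, sufficiency. -/

namespace Pool.Agent.W786.Ls

open MeasureTheory Set Complex Filter
open scoped ENNReal NNReal Topology

variable {n m : ℕ}

/-- the closed cube -/
abbrev Cc (n : ℕ) : Set (Fin n → ℝ) := Icc (fun _ : Fin n => (-1 : ℝ)) (fun _ => 1)

lemma CB_Cc : (volume : Measure (Fin n → ℝ)).restrict (CB n) = volume.restrict (Cc n) :=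
  Pool.Agent.W771.MD.nuC_eq

/-- the `Λ(q)` property with loss `N^δ` -/
def IsLam (Λ : Set (Fin n → ℤ)) (q δ : ℝ) (K : ℝ≥0) : Prop :=
  ∀ (N : ℝ) (S : Finset (Fin n → ℤ)) (c : (Fin n → ℤ) → ℂ), 1 ≤ N → (∀ k ∈ S, k ∈ Λ) →
    (∀ k ∈ S, ∀ l ∈ S, ‖k - l‖ ≤ N) →
    eLpNorm (trig S c) (ENNReal.ofReal q) (volume.restrict (Cc n)) ≤
      ENNReal.ofReal (K * N ^ δ * Real.sqrt (∑ k ∈ S, ‖c k‖ ^ 2))

lemma l2_real (S : Finset (Fin n → ℤ)) (c : (Fin n → ℤ) → ℂ) :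
    l2 S c = ENNReal.ofReal (Real.sqrt (∑ k ∈ S, ‖c k‖ ^ 2)) := by
  unfold l2
  rw [Real.sqrt_eq_rpow, ← ENNReal.ofReal_rpow_of_nonneg (by positivity) (by norm_num),
    ENNReal.ofReal_sum_of_nonneg (fun k _ => by positivity)]
  congr 1
  apply Finset.sum_congr rfl
  intro k _
  rw [ENNReal.ofReal_pow (norm_nonneg _), ofReal_norm]

lemma eLp_le_iff {α : Type*} [MeasurableSpace α] (μ : Measure α) (f : α → ℂ) (q : ℝ) (hq : 0 < q)
    (A : ℝ≥0∞) : eLpNorm f (ENNReal.ofReal q) μ ≤ A ↔ ∫⁻ v, ‖f v‖ₑ ^ q ∂μ ≤ A ^ q := by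
  rw [eLpNorm_eq_lintegral_rpow_enorm_toReal (by simpa using hq) ENNReal.ofReal_ne_top,
    ENNReal.toReal_ofReal hq.le]
  constructor
  · intro h
    have h2 := ENNReal.rpow_le_rpow h hq.le
    rwa [← ENNReal.rpow_mul, one_div_mul_cancel hq.ne', ENNReal.rpow_one] at h2
  · intro h
    have h2 := ENNReal.rpow_le_rpow h (by positivity : 0 ≤ 1 / q)
    rwa [← ENNReal.rpow_mul, mul_one_div_cancel hq.ne', ENNReal.rpow_one] at h2

lemma isLam_iff (Λ : Set (Fin n → ℤ)) (q δ : ℝ) (hq : 0 < q) (K : ℝ≥0) :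
    IsLam Λ q δ K ↔ Lam Λ q δ K := by
  have key : ∀ (N : ℝ) (S : Finset (Fin n → ℤ)) (c : (Fin n → ℤ) → ℂ), 1 ≤ N →
      ((eLpNorm (trig S c) (ENNReal.ofReal q) (volume.restrict (Cc n)) ≤
      ENNReal.ofReal (K * N ^ δ * Real.sqrt (∑ k ∈ S, ‖c k‖ ^ 2))) ↔
      ∫⁻ v in CB n, ‖trig S c v‖ₑ ^ q ≤ (K * ENNReal.ofReal (N ^ δ) * l2 S c) ^ q) := by
    intro N S c hN
    rw [eLp_le_iff _ _ q hq, CB_Cc, l2_real, ENNReal.ofReal_mul (by positivity),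
      ENNReal.ofReal_mul (by positivity), ENNReal.ofReal_coe_nnreal]
  unfold IsLam Lam
  constructor
  · intro h N S c hN hS hd
    exact (key N S c hN).mp (h N S c hN hS hd)
  · intro h N S c hN hS hd
    exact (key N S c hN).mpr (h N S c hN hS hd)

/-- the frequencies lie in `Λ` -/
def Freq (Λ : Set (Fin n → ℤ)) (g : (Fin n → ℝ) → ℂ) : Prop :=
  ∀ k, k ∉ Λ → ∫ v in Cc n, g v * (starRingEnd ℂ) (ek k v) = 0

lemma freq_iff (Λ : Set (Fin n → ℤ)) (g : (Fin n → ℝ) → ℂ) : Freq Λ g ↔ Spec Λ g := by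
  unfold Freq Spec
  rw [CB_Cc]

lemma em_exp (y : Fin n → ℝ) (t : ℝ) (v : Fin n → ℝ) : em y t v =
    cexp (2 * Real.pi * I * ((∑ j, v j * y j + (∑ j, v j ^ 2) * t : ℝ) : ℂ)) := by
  unfold em qe
  rw [← Complex.exp_sum, ← Finset.mul_sum, ← Complex.ofReal_sum, Finset.sum_add_distrib,
    Finset.sum_mul]

lemma ext_em (f : (Fin n → ℝ) → ℂ) (y : Fin n → ℝ) (t : ℝ) :
    Pool.Agent.H728R3.SR.ext f (y, t) = ∫ v in CB n, f v * em y t v := by
  unfold Pool.Agent.H728R3.SR.ext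
  rw [CB_Cc]
  simp only [em_exp]

lemma l2norm_eq (f : (Fin n → ℝ) → ℂ) : eLpNorm f 2 (volume.restrict (Cc n)) =
    (∫⁻ v in CB n, ‖f v‖ₑ ^ 2) ^ (1 / 2 : ℝ) := by
  rw [eLpNorm_eq_lintegral_rpow_enorm_toReal (by norm_num) (by norm_num), CB_Cc]
  simp

/-- interpolation with the supremum -/
lemma interp {α : Type*} [MeasurableSpace α] (μ : Measure α) (F : α → ℂ) (r q : ℝ) (hr : 0 < r)
    (hrq : r ≤ q) (a b : ℝ≥0∞) (hs : ∀ z, ‖F z‖ₑ ≤ a) (hi : ∫⁻ z, ‖F z‖ₑ ^ r ∂μ ≤ b ^ r) :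
    ∫⁻ z, ‖F z‖ₑ ^ q ∂μ ≤ (a + b) ^ q := by
  have hq : 0 < q := by linarith
  by_cases ha : a = ∞
  · rw [ha, top_add, ENNReal.top_rpow_of_pos hq]
    exact le_top
  calc ∫⁻ z, ‖F z‖ₑ ^ q ∂μ ≤ ∫⁻ z, a ^ (q - r) * ‖F z‖ₑ ^ r ∂μ := by
        apply lintegral_mono
        intro z
        simp only
        have e1 : ‖F z‖ₑ ^ q = ‖F z‖ₑ ^ (q - r) * ‖F z‖ₑ ^ r := by
          rw [← ENNReal.rpow_add_of_nonneg _ _ (by linarith) hr.le]
          congr 1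
          ring
        rw [e1]
        gcongr
        exact hs z
    _ = a ^ (q - r) * ∫⁻ z, ‖F z‖ₑ ^ r ∂μ :=
        lintegral_const_mul' _ _ (ENNReal.rpow_ne_top_of_nonneg (by linarith) ha)
    _ ≤ (a + b) ^ (q - r) * (a + b) ^ r := by
        gcongr
        · exact le_self_add
        · exact hi.trans (ENNReal.rpow_le_rpow le_add_self hr.le)
    _ = _ := by
        rw [← ENNReal.rpow_add_of_nonneg _ _ (by linarith) hr.le]
        congr 1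
        ring

lemma ext_sup (f : (Fin n → ℝ) → ℂ) (z : (Fin n → ℝ) × ℝ) :
    ‖Pool.Agent.H728R3.SR.ext f z‖ₑ ≤ ∫⁻ v in CB n, ‖f v‖ₑ := by
  obtain ⟨y, t⟩ := z
  rw [ext_em]
  refine (enorm_integral_le_lintegral_enorm _).trans (le_of_eq ?_)
  congr 1
  ext v
  rw [enorm_mul, em_enorm, mul_one]

/-- **frequencies in all variables** -/
theorem part1 (hS : SliceStm) (hA : ApxStm) (n : ℕ) (r q δ : ℝ) (hn : 1 ≤ n)
    (hr : 2 < r) (hrq : r ≤ q) (hδ : 0 ≤ δ) (hrδ : r * δ < n * (r / 2 - 1) - 1) : ∃ C : ℝ≥0,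
    ∀ (Λ : Set (Fin n → ℤ)) (K : ℝ≥0), 1 ≤ K → IsLam Λ r δ K →
    ∀ f : (Fin n → ℝ) → ℂ, Measurable f → MemLp f 2 (volume.restrict (Cc n)) → Freq Λ f →
    eLpNorm (Pool.Agent.H728R3.SR.ext f) (ENNReal.ofReal q) volume ≤
      C * K * eLpNorm f 2 (volume.restrict (Cc n)) := by
  obtain ⟨C, hC⟩ := allVars hS hA n r δ hn hr hδ hrδ
  have hr0 : 0 < r := by linarith
  have hq0 : 0 < q := by linarith
  have h2n : ((2 : ℝ≥0∞) ^ n) ^ (1 / 2 : ℝ) ≠ ∞ :=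
    ENNReal.rpow_ne_top_of_nonneg (by norm_num) (ENNReal.pow_ne_top (by norm_num))
  refine ⟨(((2 : ℝ≥0∞) ^ n) ^ (1 / 2 : ℝ)).toNNReal + C, ?_⟩
  intro Λ K hK hL f hf hf2 hsp
  have hKe : (1 : ℝ≥0∞) ≤ K := by exact_mod_cast hK
  have h2 : ∫⁻ v in CB n, ‖f v‖ₑ ^ 2 ≠ ∞ := by
    intro hc
    have h3 := hf2.2
    rw [l2norm_eq, hc, ENNReal.top_rpow_of_pos (by norm_num)] at h3
    exact absurd h3 (lt_irrefl _)
  have hmeas : Measurable (fun z : (Fin n → ℝ) × ℝ => ‖Pool.Agent.H728R3.SR.ext f z‖ₑ ^ r) :=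
    (Pool.Agent.W771.MD.ext_meas n f hf).enorm.pow_const r
  have h5 : ∫⁻ z : (Fin n → ℝ) × ℝ, ‖Pool.Agent.H728R3.SR.ext f z‖ₑ ^ r ≤
      (C * K * (∫⁻ v in CB n, ‖f v‖ₑ ^ 2) ^ (1 / 2 : ℝ)) ^ r := by
    rw [Measure.volume_eq_prod, lintegral_prod_symm _ hmeas.aemeasurable]
    simp only [ext_em]
    exact hC Λ K hK ((isLam_iff Λ r δ hr0 K).mp hL) f hf h2 ((freq_iff Λ f).mp hsp)
  have h6 : ∀ z : (Fin n → ℝ) × ℝ, ‖Pool.Agent.H728R3.SR.ext f z‖ₑ ≤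
      ((2 : ℝ≥0∞) ^ n) ^ (1 / 2 : ℝ) * (∫⁻ v in CB n, ‖f v‖ₑ ^ 2) ^ (1 / 2 : ℝ) := by
    intro z
    refine (ext_sup f z).trans ?_
    have h7 := ENNReal.rpow_le_rpow (cs_CB f hf) (by norm_num : (0 : ℝ) ≤ 1 / 2)
    rw [← ENNReal.rpow_natCast _ 2, ← ENNReal.rpow_mul,
      ENNReal.mul_rpow_of_nonneg _ _ (by norm_num)] at h7
    have e1 : ((2 : ℕ) : ℝ) * (1 / 2) = 1 := by norm_num
    rwa [e1, ENNReal.rpow_one] at h7
  rw [eLp_le_iff _ _ q hq0, l2norm_eq]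
  refine (interp volume _ r q hr0 hrq _ _ h6 h5).trans ?_
  apply ENNReal.rpow_le_rpow _ hq0.le
  push_cast
  rw [ENNReal.coe_toNNReal h2n, add_mul, add_mul]
  gcongr
  exact le_mul_of_one_le_right' hKe

/-- a spectrum of dimension at most `α` -/
theorem part5 (hS : SliceStm) (hA : ApxStm) (hP : ParsStm) (n : ℕ) (q α : ℝ) (hn : 1 ≤ n)
    (hα : 0 ≤ α) (hαn : α < n) (hq : 2 + 2 / (n - α) < q) : ∃ C : ℝ≥0,
    ∀ (Λ : Set (Fin n → ℤ)) (K : ℝ≥0), 1 ≤ K →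
    (∀ (N : ℝ) (S : Finset (Fin n → ℤ)), 1 ≤ N → (∀ k ∈ S, k ∈ Λ) →
      (∀ k ∈ S, ∀ l ∈ S, ‖k - l‖ ≤ N) → (S.card : ℝ) ≤ K * N ^ α) →
    ∀ f : (Fin n → ℝ) → ℂ, Measurable f → MemLp f 2 (volume.restrict (Cc n)) → Freq Λ f →
    eLpNorm (Pool.Agent.H728R3.SR.ext f) (ENNReal.ofReal q) volume ≤
      C * ENNReal.ofReal (K ^ (1 / 2 - 1 / q)) * eLpNorm f 2 (volume.restrict (Cc n)) := by
  have hnα : 0 < (n : ℝ) - α := by linarith
  have hq2 : 2 < q := lt_trans (by linarith [div_pos (zero_lt_two (α := ℝ)) hnα]) hq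
  have hq0 : 0 < q := by linarith
  set θ : ℝ := 1 / 2 - 1 / q with hθ
  have hθq : q * θ = q / 2 - 1 := by
    rw [hθ]
    field_simp
  have hθ0 : 0 < θ := by
    by_contra hc
    push Not at hc
    nlinarith
  have hc : 1 < (n - α) * (q / 2 - 1) := by
    have h1 : 2 / (n - α) < q - 2 := by linarith
    rw [div_lt_iff₀ hnα] at h1
    nlinarith
  obtain ⟨C, hC⟩ := part1 hS hA n q q (α * θ) hn hq2 le_rfl (by positivity) (by
    have : q * (α * θ) = α * (q / 2 - 1) := by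
      rw [← hθq]
      ring
    rw [this]
    nlinarith)
  refine ⟨C * (2 ^ (n : ℕ)), ?_⟩
  intro Λ K hK hcard f hf hf2 hsp
  have hK1 : (1 : ℝ) ≤ K := by exact_mod_cast hK
  set L : ℝ≥0 := 2 ^ n * (K ^ θ) with hL
  have hKθ : (1 : ℝ≥0) ≤ K ^ θ := NNReal.one_le_rpow hK hθ0.le
  have hL1 : 1 ≤ L := by
    rw [hL]
    exact one_le_mul (one_le_pow₀ (by norm_num)) hKθ
  have hLam : IsLam Λ q (α * θ) L := by
    rw [isLam_iff _ _ _ hq0]
    intro N S c hN hS hd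
    have hcd := hcard N S hN hS hd
    have hN0 : 0 < N := by linarith
    -- the supremum
    have hsup : ∀ v, ‖trig S c v‖ₑ ≤ (ENNReal.ofReal (K * N ^ α)) ^ (1 / 2 : ℝ) * l2 S c := by
      intro v
      have h1 : ‖trig S c v‖ₑ ≤ ∑ k ∈ S, 1 * ‖c k‖ₑ := by
        unfold trig
        refine (enorm_sum_le _ _).trans (Finset.sum_le_sum fun k _ => ?_)
        rw [enorm_mul, one_mul]
        have : ‖ek k v‖ₑ = 1 := by
          rw [← ofReal_norm]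
          unfold ek
          have e : Real.pi * I * ((∑ j, (k j : ℝ) * v j : ℝ) : ℂ) =
              ((Real.pi * ∑ j, (k j : ℝ) * v j : ℝ) : ℂ) * I := by push_cast; ring
          rw [e, Complex.norm_exp_ofReal_mul_I, ENNReal.ofReal_one]
        rw [this, mul_one]
      refine h1.trans ?_
      have h2 := ENNReal.inner_le_Lp_mul_Lq S (fun _ => (1 : ℝ≥0∞)) (fun k => ‖c k‖ₑ)
        Real.HolderConjugate.two_two
      refine h2.trans ?_
      simp only [ENNReal.one_rpow, ENNReal.rpow_ofNat, Finset.sum_const, nsmul_eq_mul, mul_one]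
      unfold l2
      gcongr
      rw [one_pow, mul_one]
      calc ((S.card : ℕ) : ℝ≥0∞) = ENNReal.ofReal (S.card : ℝ) := (ENNReal.ofReal_natCast _).symm
        _ ≤ _ := ENNReal.ofReal_le_ofReal hcd
    have h2 := hP n S c
    rw [← l2_sq] at h2
    set Y := l2 S c with hY
    have hYt : Y ≠ ∞ := l2_ne_top S c
    set X := ENNReal.ofReal (K * N ^ α) with hX
    have hX1 : (1 : ℝ≥0∞) ≤ X := by
      rw [hX, ← ENNReal.ofReal_one]
      apply ENNReal.ofReal_le_ofReal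
      exact one_le_mul_of_one_le_of_one_le hK1 (Real.one_le_rpow hN hα)
    calc ∫⁻ v in CB n, ‖trig S c v‖ₑ ^ q ≤
        ∫⁻ v in CB n, (X ^ (1 / 2 : ℝ) * Y) ^ (q - 2) * ‖trig S c v‖ₑ ^ 2 := by
          apply lintegral_mono
          intro v
          simp only
          have e1 : ‖trig S c v‖ₑ ^ q = ‖trig S c v‖ₑ ^ (q - 2) * ‖trig S c v‖ₑ ^ 2 := by
            rw [← ENNReal.rpow_natCast, ← ENNReal.rpow_add_of_nonneg _ _ (by linarith) (by norm_num)]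
            congr 1
            push_cast
            ring
          rw [e1]
          gcongr
          exact hsup v
      _ = (X ^ (1 / 2 : ℝ) * Y) ^ (q - 2) * (2 ^ n * Y ^ 2) := by
          rw [lintegral_const_mul _ ((trig_meas S c).enorm.pow_const 2), h2]
      _ = (X ^ θ) ^ q * 2 ^ n * Y ^ q := by
          rw [ENNReal.mul_rpow_of_nonneg _ _ (by linarith), ← ENNReal.rpow_mul, ← ENNReal.rpow_mul]
          have e1 : (1 / 2 : ℝ) * (q - 2) = θ * q := by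
            rw [mul_comm θ, hθq]
            ring
          have e2 : Y ^ q = Y ^ (q - 2) * Y ^ 2 := by
            rw [← ENNReal.rpow_natCast, ← ENNReal.rpow_add_of_nonneg _ _ (by linarith) (by norm_num)]
            congr 1
            push_cast
            ring
          rw [e1, e2]
          ring
      _ ≤ (X ^ θ) ^ q * (2 ^ n) ^ q * Y ^ q := by
          gcongr
          calc (2 : ℝ≥0∞) ^ n = (2 ^ n) ^ (1 : ℝ) := (ENNReal.rpow_one _).symm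
            _ ≤ _ := ENNReal.rpow_le_rpow_of_exponent_le (one_le_pow₀ (by norm_num)) (by linarith)
      _ = (L * ENNReal.ofReal (N ^ (α * θ)) * Y) ^ q := by
          rw [← ENNReal.mul_rpow_of_nonneg _ _ hq0.le, ← ENNReal.mul_rpow_of_nonneg _ _ hq0.le]
          congr 2
          have e3 : X ^ θ = (K : ℝ≥0∞) ^ θ * ENNReal.ofReal (N ^ (α * θ)) := by
            rw [hX, ENNReal.ofReal_mul (by positivity), ENNReal.ofReal_coe_nnreal,
              ENNReal.mul_rpow_of_nonneg _ _ hθ0.le, ENNReal.ofReal_rpow_of_nonneg (by positivity)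
              hθ0.le, ← Real.rpow_mul hN0.le]
          rw [e3, hL]
          push_cast
          rw [ENNReal.coe_rpow_of_nonneg _ hθ0.le]
          ring
  refine (hC Λ L hL1 hLam f hf hf2 hsp).trans (le_of_eq ?_)
  congr 1
  rw [hL]
  have e4 : ENNReal.ofReal ((K : ℝ) ^ θ) = ((K ^ θ : ℝ≥0) : ℝ≥0∞) := by
    rw [← NNReal.coe_rpow, ENNReal.ofReal_coe_nnreal]
  rw [e4]
  push_cast
  ring

open Pool.Agent.W771 Pool.Agent.W771.MD

/-- **one rough variable**, positive size -/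
theorem part2a (hS : SliceStm) (hA : ApxStm) (hm : 1 ≤ m) (q δ p : ℝ) (hq2 : 2 < q)
    (hδ : 0 ≤ δ) (hqδ : (m + 1) * (q * δ) < m * ((m + 1) * (q / 2 - 1) - 1)) (hp2 : 2 ≤ p)
    (hp : (m + 1) * q < p * ((m + 1) * (q - 1) - 2)) : ∃ C : ℝ≥0,
    ∀ (Λ : Set (Fin m → ℤ)) (K : ℝ≥0), 1 ≤ K → Lam Λ q δ K →
    ∀ f : (Fin (m + 1) → ℝ) → ℂ, Measurable f →
    (∀ᵐ u ∂((volume : Measure ℝ).restrict (Icc (-1) 1)), Freq Λ (fun v => f (Fin.cons u v))) →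
    ∀ A : ℝ≥0, A ≠ 0 → (∫⁻ u in Icc (-1 : ℝ) 1,
      (∫⁻ v in Cc m, ‖f (Fin.cons u v)‖ₑ ^ 2) ^ (p / 2) ≤ A ^ p) →
    ∫⁻ y : (Fin (m + 1) → ℝ) × ℝ, ‖Pool.Agent.H728R3.SR.ext f y‖ₑ ^ q ≤ (C * K * A) ^ q := by
  obtain ⟨C, hC⟩ := roughLL hS hA hm q δ p hq2 hδ hqδ hp2 hp
  have hm0 : (1 : ℝ) ≤ m := by exact_mod_cast hm
  have hq0 : 0 < q := by linarith
  have hp0 : 0 ≤ p / 2 := by linarith
  refine ⟨2 * C, ?_⟩
  intro Λ K hK hL f hf hsp A hA0 hN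
  set F := FFn f with hFd
  have hF : Measurable (Function.uncurry F) := FFn_meas f hf
  have hNF : ∫⁻ u in II, N2 (nuC m) F u ^ (p / 2) ≤ A ^ p := by
    refine le_trans ?_ hN
    have hgm : Measurable (fun u : ℝ => (∫⁻ v in Cc m, ‖f (Fin.cons u v)‖ₑ ^ 2) ^ (p / 2)) := by
      have h1 : Measurable (fun w : ℝ × (Fin m → ℝ) => ‖f (Fin.cons w.1 w.2)‖ₑ ^ 2) :=
        (hf.comp cons_meas).enorm.pow_const 2
      exact (Measurable.lintegral_prod_right' h1).pow_const _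
    refine le_trans (le_of_eq ?_) (II_scale _ hgm)
    apply setLIntegral_congr_fun measurableSet_Icc
    intro u hu
    simp only [hFd]
    rw [FFn_N2 f u hu]
  have hAt : (A : ℝ≥0∞) ^ p ≠ ∞ := ENNReal.rpow_ne_top_of_nonneg (by linarith) ENNReal.coe_ne_top
  have hae : ∀ᵐ u : ℝ, N2 (nuC m) F u ≠ ∞ := by
    have h1 : ∀ᵐ u ∂(volume.restrict II), N2 (nuC m) F u ^ (p / 2) < ∞ := by
      apply ae_lt_top ((N2_meas (nuC m) F hF).pow_const _)
      exact ne_top_of_le_ne_top hAt hNF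
    rw [ae_restrict_iff' measurableSet_Icc] at h1
    filter_upwards [h1] with u hu
    by_cases h : u ∈ II
    · intro hc
      have h2 := hu h
      rw [hc, ENNReal.top_rpow_of_pos (by linarith)] at h2
      exact absurd h2 (lt_irrefl _)
    · rw [N2_zero (nuC m) F II (fun u hu v => indicator_of_notMem hu _) u h]
      exact ENNReal.zero_ne_top
  have hLL : ∀ X T ψ, LL F X T ψ = LL (tr F) X T ψ := by
    intro X T ψ
    unfold LL
    apply integral_congr_ae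
    have h1 : ∀ᵐ w ∂((volume : Measure ℝ).prod (nuC m)), N2 (nuC m) F w.1 ≠ ∞ :=
      Measure.quasiMeasurePreserving_fst.ae hae
    filter_upwards [h1] with w hw
    have h2 : tr F w.1 w.2 = F w.1 w.2 := indicator_of_mem (by exact hw) _
    rw [h2]
  have hext : ∀ x y t, ‖Pool.Agent.H728R3.SR.ext f (Fin.cons x y, t)‖ₑ ^ q =
      (2 : ℝ≥0∞) ^ q * ‖LL (tr F) (-4 * Real.pi * x) (-8 * Real.pi * t)
        (Pool.Agent.W771.MD.em y t)‖ₑ ^ q := by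
    intro x y t
    rw [ext_LL, ← hFd, hLL, enorm_mul, ENNReal.mul_rpow_of_nonneg _ _ hq0.le]
    congr 2
    rw [← ofReal_norm]
    norm_num
  have h2q : (2 : ℝ≥0∞) ^ q ≠ ∞ := ENNReal.rpow_ne_top_of_nonneg hq0.le (by norm_num)
  -- the frequencies
  have hspF : ∀ k, k ∉ Λ → ∀ᵐ u : ℝ, ∫ v in CB m, tr F u v * (starRingEnd ℂ) (ek k v) = 0 := by
    intro k hk
    rw [ae_restrict_iff' measurableSet_Icc] at hsp
    have h2 : ∀ᵐ u : ℝ, 2 * u ∈ Icc (-1 : ℝ) 1 → Freq Λ (fun v => f (Fin.cons (2 * u) v)) := by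
      have hz : volume {u : ℝ | ¬ (u ∈ Icc (-1 : ℝ) 1 → Freq Λ (fun v => f (Fin.cons u v)))} = 0 :=
        ae_iff.mp hsp
      rw [ae_iff]
      have h3 := Real.volume_preimage_mul_left (two_ne_zero : (2 : ℝ) ≠ 0)
        {u : ℝ | ¬ (u ∈ Icc (-1 : ℝ) 1 → Freq Λ (fun v => f (Fin.cons u v)))}
      rw [hz, mul_zero] at h3
      exact h3
    filter_upwards [h2] with u hu
    by_cases h : u ∈ {u | N2 (nuC m) F u ≠ ∞}
    · have e1 : ∀ v, tr F u v = F u v := fun v => indicator_of_mem h _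
      simp only [e1]
      by_cases hI : u ∈ II
      · have e2 : ∀ v, F u v = f (Fin.cons (2 * u) v) := fun v => indicator_of_mem hI _
        simp only [e2]
        have h4 := hu ((two_mem u).mpr hI) k hk
        rwa [CB_Cc]
      · have e2 : ∀ v, F u v = 0 := fun v => indicator_of_notMem hI _
        simp [e2]
    · have e1 : ∀ v, tr F u v = 0 := fun v => indicator_of_notMem h _
      simp [e1]
  rw [lint_cons _ ((ext_meas (m + 1) f hf).enorm.pow_const q)]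
  simp only [hext, lintegral_const_mul' _ _ h2q]
  have hmain := hC Λ K hK hL (tr F) (Pool.Agent.W771.MD.tr_meas F hF) (fun u hu v => by
      unfold tr
      by_cases h : u ∈ {u | N2 (nuC m) F u ≠ ∞}
      · rw [indicator_of_mem h]
        exact indicator_of_notMem hu _
      · rw [indicator_of_notMem h]) hspF A hA0
    ((lintegral_mono fun u => ENNReal.rpow_le_rpow (tr_N2 F u).1 hp0).trans hNF)
  calc (2 : ℝ≥0∞) ^ q * ∫⁻ t : ℝ, ∫⁻ x : ℝ, ∫⁻ y, ‖LL (tr F) (-4 * Real.pi * x)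
        (-8 * Real.pi * t) (Pool.Agent.W771.MD.em y t)‖ₑ ^ q ≤
      (2 : ℝ≥0∞) ^ q * (C * K * A) ^ q := by gcongr
    _ = _ := by
        rw [← ENNReal.mul_rpow_of_nonneg _ _ hq0.le]
        congr 1
        push_cast
        ring

/-- the supremum in terms of the mixed norm -/
lemma sup_mixed (m : ℕ) (p : ℝ) (hp : 2 ≤ p) (f : (Fin (m + 1) → ℝ) → ℂ) (hf : Measurable f)
    (A : ℝ≥0∞) (hN : ∫⁻ u in Icc (-1 : ℝ) 1,
      (∫⁻ v in Cc m, ‖f (Fin.cons u v)‖ₑ ^ 2) ^ (p / 2) ≤ A ^ p) :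
    ∫⁻ v in CB (m + 1), ‖f v‖ₑ ≤ ((2 : ℝ≥0∞) ^ m) ^ (1 / 2 : ℝ) * (2 * A) := by
  have hp0 : 0 < p := by linarith
  -- Tonelli
  have hmp := (volume_preserving_piFinSuccAbove (fun _ : Fin (m + 1) => ℝ) 0).symm
  have h1 : ∫⁻ v in CB (m + 1), ‖f v‖ₑ = ∫⁻ u in Icc (-1 : ℝ) 1, ∫⁻ v in Cc m,
      ‖f (Fin.cons u v)‖ₑ := by
    rw [CB_Cc, ← lintegral_indicator measurableSet_Icc,
      ← hmp.lintegral_comp_emb (MeasurableEquiv.measurableEmbedding _)]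
    have h2 : ∀ w : ℝ × (Fin m → ℝ), (MeasurableEquiv.piFinSuccAbove
        (fun _ : Fin (m + 1) => ℝ) 0).symm w = (Fin.cons w.1 w.2 : Fin (m + 1) → ℝ) := by
      intro w
      simp [MeasurableEquiv.piFinSuccAbove]
      rfl
    simp only [h2]
    have h3 : ∀ w : ℝ × (Fin m → ℝ), (Cc (m + 1)).indicator (fun v => ‖f v‖ₑ)
        (Fin.cons w.1 w.2 : Fin (m + 1) → ℝ) = (Icc (-1 : ℝ) 1).indicator (fun u =>
          (Cc m).indicator (fun v => ‖f (Fin.cons u v)‖ₑ) w.2) w.1 := by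
      intro w
      have h4 : (Fin.cons w.1 w.2 : Fin (m + 1) → ℝ) ∈ Cc (m + 1) ↔
          w.1 ∈ Icc (-1 : ℝ) 1 ∧ w.2 ∈ Cc m := by
        simp only [mem_Icc, Pi.le_def, Fin.forall_fin_succ, Fin.cons_zero, Fin.cons_succ]
        tauto
      by_cases hu : w.1 ∈ Icc (-1 : ℝ) 1
      · rw [indicator_of_mem hu]
        by_cases hv : w.2 ∈ Cc m
        · rw [indicator_of_mem hv, indicator_of_mem (h4.mpr ⟨hu, hv⟩)]
        · rw [indicator_of_notMem hv, indicator_of_notMem (fun h => hv (h4.mp h).2)]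
      · rw [indicator_of_notMem hu, indicator_of_notMem (fun h => hu (h4.mp h).1)]
    simp only [h3]
    have h5 : Measurable (fun w : ℝ × (Fin m → ℝ) => (Icc (-1 : ℝ) 1).indicator (fun u =>
          (Cc m).indicator (fun v => ‖f (Fin.cons u v)‖ₑ) w.2) w.1) := by
      simp only [← h3]
      exact (hf.enorm.indicator measurableSet_Icc).comp cons_meas
    have h6 := lintegral_prod (μ := (volume : Measure ℝ)) (ν := (volume : Measure (Fin m → ℝ))) _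
      h5.aemeasurable
    refine h6.trans ?_
    rw [← lintegral_indicator measurableSet_Icc]
    congr 1
    ext u
    by_cases hu : u ∈ Icc (-1 : ℝ) 1
    · simp only [indicator_of_mem hu]
      rw [lintegral_indicator measurableSet_Icc]
    · simp only [indicator_of_notMem hu]
      simp
  rw [h1]
  have hN2 : Measurable (fun u : ℝ => ∫⁻ v in Cc m, ‖f (Fin.cons u v)‖ₑ ^ 2) := by
    have h1 : Measurable (fun w : ℝ × (Fin m → ℝ) => ‖f (Fin.cons w.1 w.2)‖ₑ ^ 2) :=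
      (hf.comp cons_meas).enorm.pow_const 2
    exact Measurable.lintegral_prod_right' h1
  -- Cauchy-Schwarz in v
  have h2 : ∀ u : ℝ, ∫⁻ v in Cc m, ‖f (Fin.cons u v)‖ₑ ≤ ((2 : ℝ≥0∞) ^ m) ^ (1 / 2 : ℝ) *
      (∫⁻ v in Cc m, ‖f (Fin.cons u v)‖ₑ ^ 2) ^ (1 / 2 : ℝ) := by
    intro u
    have hfu : Measurable (fun v : Fin m → ℝ => f (Fin.cons u v)) := by
      have h8 : Measurable (fun v : Fin m → ℝ => ((u, v) : ℝ × (Fin m → ℝ))) :=
        measurable_const.prodMk measurable_id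
      exact hf.comp (cons_meas.comp h8)
    have h7 := ENNReal.rpow_le_rpow (cs_CB _ hfu) (by norm_num : (0 : ℝ) ≤ 1 / 2)
    rw [← ENNReal.rpow_natCast _ 2, ← ENNReal.rpow_mul,
      ENNReal.mul_rpow_of_nonneg _ _ (by norm_num)] at h7
    have e1 : ((2 : ℕ) : ℝ) * (1 / 2) = 1 := by norm_num
    rwa [e1, ENNReal.rpow_one, CB_Cc] at h7
  -- Hölder in u
  have h3 : ∫⁻ u in Icc (-1 : ℝ) 1, (∫⁻ v in Cc m, ‖f (Fin.cons u v)‖ₑ ^ 2) ^ (1 / 2 : ℝ) ≤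
      2 * A := by
    have hle := eLpNorm'_le_eLpNorm'_mul_rpow_measure_univ
      (f := fun u : ℝ => (∫⁻ v in Cc m, ‖f (Fin.cons u v)‖ₑ ^ 2) ^ (1 / 2 : ℝ)) one_pos
      (by linarith : (1 : ℝ) ≤ p) (μ := volume.restrict (Icc (-1 : ℝ) 1))
      (hN2.pow_const _).aestronglyMeasurable
    unfold eLpNorm' at hle
    simp only [enorm_eq_self, ENNReal.rpow_one, div_one, ← ENNReal.rpow_mul] at hle
    refine hle.trans ?_
    have e1 : (1 / 2 : ℝ) * p = p / 2 := by ring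
    rw [e1, Measure.restrict_apply_univ, Real.volume_Icc]
    have e2 : ENNReal.ofReal (1 - -1) = 2 := by norm_num
    rw [e2, mul_comm]
    have h9 : (1 : ℝ) - 1 / p ≤ 1 := by
      have : 0 < 1 / p := by positivity
      linarith
    gcongr
    · calc (2 : ℝ≥0∞) ^ ((1 : ℝ) - 1 / p) ≤ 2 ^ (1 : ℝ) :=
          ENNReal.rpow_le_rpow_of_exponent_le (by norm_num) h9
        _ = 2 := ENNReal.rpow_one _
    · calc (∫⁻ u in Icc (-1 : ℝ) 1, (∫⁻ v in Cc m, ‖f (Fin.cons u v)‖ₑ ^ 2) ^ (p / 2)) ^ (1 / p) ≤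
          (A ^ p) ^ (1 / p) := by gcongr
        _ = A := by rw [← ENNReal.rpow_mul, mul_one_div_cancel hp0.ne', ENNReal.rpow_one]
  calc ∫⁻ u in Icc (-1 : ℝ) 1, ∫⁻ v in Cc m, ‖f (Fin.cons u v)‖ₑ ≤
      ∫⁻ u in Icc (-1 : ℝ) 1, ((2 : ℝ≥0∞) ^ m) ^ (1 / 2 : ℝ) *
        (∫⁻ v in Cc m, ‖f (Fin.cons u v)‖ₑ ^ 2) ^ (1 / 2 : ℝ) := lintegral_mono h2
    _ = ((2 : ℝ≥0∞) ^ m) ^ (1 / 2 : ℝ) * ∫⁻ u in Icc (-1 : ℝ) 1,
        (∫⁻ v in Cc m, ‖f (Fin.cons u v)‖ₑ ^ 2) ^ (1 / 2 : ℝ) :=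
        lintegral_const_mul _ (hN2.pow_const _)
    _ ≤ _ := by gcongr

/-- **one rough variable** -/
theorem part2 (hS : SliceStm) (hA : ApxStm) (m : ℕ) (r q δ p : ℝ) (hm : 1 ≤ m) (hr : 2 < r)
    (hrq : r ≤ q) (hδ : 0 ≤ δ) (hrδ : (m + 1) * (r * δ) < m * ((m + 1) * (r / 2 - 1) - 1))
    (hp2 : 2 ≤ p) (hp : ((m : ℝ) + 1) * r < p * ((m + 1) * (r - 1) - 2)) : ∃ C : ℝ≥0,
    ∀ (Λ : Set (Fin m → ℤ)) (K : ℝ≥0), 1 ≤ K → IsLam Λ r δ K →
    ∀ f : (Fin (m + 1) → ℝ) → ℂ, Measurable f →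
    (∀ᵐ u ∂((volume : Measure ℝ).restrict (Icc (-1) 1)), Freq Λ (fun v => f (Fin.cons u v))) →
    ∀ A : ℝ≥0, (∫⁻ u in Icc (-1 : ℝ) 1,
      (∫⁻ v in Cc m, ‖f (Fin.cons u v)‖ₑ ^ 2) ^ (p / 2) ≤ (A : ℝ≥0∞) ^ p) →
    eLpNorm (Pool.Agent.H728R3.SR.ext f) (ENNReal.ofReal q) volume ≤ C * K * A := by
  obtain ⟨C, hC⟩ := part2a hS hA hm r δ p hr hδ hrδ hp2 hp
  have hr0 : 0 < r := by linarith
  have hq0 : 0 < q := by linarith
  have h2n : ((2 : ℝ≥0∞) ^ m) ^ (1 / 2 : ℝ) ≠ ∞ :=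
    ENNReal.rpow_ne_top_of_nonneg (by norm_num) (ENNReal.pow_ne_top (by norm_num))
  set C' : ℝ≥0 := (((2 : ℝ≥0∞) ^ m) ^ (1 / 2 : ℝ)).toNNReal * 2 + C with hC'
  refine ⟨C', ?_⟩
  intro Λ K hK hL f hf hsp A hN
  have hKe : (1 : ℝ≥0∞) ≤ K := by exact_mod_cast hK
  have key : ∀ L : ℝ≥0, A ≤ L → L ≠ 0 →
      eLpNorm (Pool.Agent.H728R3.SR.ext f) (ENNReal.ofReal q) volume ≤ C' * K * L := by
    intro L hAL hL0
    have hAL' : (A : ℝ≥0∞) ≤ L := by exact_mod_cast hAL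
    have hN' : ∫⁻ u in Icc (-1 : ℝ) 1, (∫⁻ v in Cc m, ‖f (Fin.cons u v)‖ₑ ^ 2) ^ (p / 2) ≤
        (L : ℝ≥0∞) ^ p := hN.trans (ENNReal.rpow_le_rpow hAL' (by linarith))
    rw [eLp_le_iff _ _ q hq0]
    have h1 := hC Λ K hK ((isLam_iff Λ r δ hr0 K).mp hL) f hf hsp L hL0 hN'
    have h2 := sup_mixed m p hp2 f hf L hN'
    refine (interp volume _ r q hr0 hrq _ _ (fun z => (ext_sup f z).trans h2) h1).trans ?_
    apply ENNReal.rpow_le_rpow _ hq0.le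
    rw [hC']
    push_cast
    rw [ENNReal.coe_toNNReal h2n, add_mul, add_mul]
    refine add_le_add ?_ le_rfl
    calc ((2 : ℝ≥0∞) ^ m) ^ (1 / 2 : ℝ) * (2 * L) = ((2 : ℝ≥0∞) ^ m) ^ (1 / 2 : ℝ) * 2 * 1 * L := by
          ring
      _ ≤ ((2 : ℝ≥0∞) ^ m) ^ (1 / 2 : ℝ) * 2 * K * L := by gcongr
  apply ENNReal.le_of_forall_pos_le_add
  intro ε hε hfin
  have hCK0 : (0 : ℝ≥0) < C' * K + 1 := by positivity
  have h1 := key (A + ε / (C' * K + 1)) le_self_add (by positivity)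
  refine h1.trans ?_
  push_cast
  rw [mul_add]
  gcongr
  have h3 : (C' * K * (ε / (C' * K + 1)) : ℝ≥0) ≤ ε := by
    rw [mul_div_assoc', div_le_iff₀ hCK0, mul_comm]
    gcongr
    exact le_self_add
  exact_mod_cast h3

end Pool.Agent.W786.Ls
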