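import Mathlib
import Pool.Agent.W786.Ls.Sl5
import Pool.Agent.W786.Ls.Cv
set_option autoImplicit false

/-! Conversion to the extension operator of the paraboloid, necessity. -/

namespace Pool.Agent.W786.Ls

open MeasureTheory Set Complex Filter
open scoped ENNReal NNReal Topology

variable {n m : ℕ}

lemma int1 (k : ℤ) (hk : k ≠ 0) :
    ∫ x in Ico (-1 : ℝ) 1, cexp (Real.pi * I * ((k : ℝ) : ℂ) * x) = 0 := by
  rw [integral_Ico_eq_integral_Ioo, ← integral_Ioc_eq_integral_Ioo,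
    ← intervalIntegral.integral_of_le (by norm_num)]
  have hc : (Real.pi * I * ((k : ℝ) : ℂ)) ≠ 0 := by
    apply mul_ne_zero (mul_ne_zero (by exact_mod_cast Real.pi_ne_zero) I_ne_zero)
    exact_mod_cast hk
  rw [integral_exp_mul_complex hc]
  have e1 : Real.pi * I * ((k : ℝ) : ℂ) * ((1 : ℝ) : ℂ) =
      Real.pi * I * ((k : ℝ) : ℂ) * ((-1 : ℝ) : ℂ) + k * (2 * Real.pi * I) := by
    push_cast
    ring
  rw [e1, Complex.exp_add, Complex.exp_int_mul_two_pi_mul_I, mul_one, sub_self, zero_div]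

lemma int_ek (l k : Fin n → ℤ) (h : l ≠ k) :
    ∫ v in CB n, ek l v * (starRingEnd ℂ) (ek k v) = 0 := by
  obtain ⟨j, hj⟩ := Function.ne_iff.mp h
  have e1 : ∀ v : Fin n → ℝ, ek l v * (starRingEnd ℂ) (ek k v) =
      ∏ i, cexp (Real.pi * I * (((l i - k i : ℤ) : ℝ) : ℂ) * (v i : ℂ)) := by
    intro v
    unfold ek
    rw [← Complex.exp_conj, ← Complex.exp_add, ← Complex.exp_sum]
    congr 1
    simp only [map_mul, conj_I, conj_ofReal]
    push_cast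
    rw [Finset.mul_sum, Finset.mul_sum, ← Finset.sum_add_distrib]
    apply Finset.sum_congr rfl
    intro i _
    ring
  simp only [e1]
  unfold CB
  rw [volume_pi, Measure.restrict_pi_pi,
    integral_fintype_prod_eq_prod (𝕜 := ℂ) (fun i (x : ℝ) =>
      cexp (Real.pi * I * (((l i - k i : ℤ) : ℝ) : ℂ) * (x : ℂ)))]
  apply Finset.prod_eq_zero (Finset.mem_univ j)
  exact int1 _ (sub_ne_zero.mpr hj)

lemma spec_trig (Λ : Set (Fin n → ℤ)) (S : Finset (Fin n → ℤ)) (c : (Fin n → ℤ) → ℂ)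
    (hS : ∀ k ∈ S, k ∈ Λ) : Spec Λ (trig S c) := by
  intro k hk
  unfold trig
  have hkS : ∀ l ∈ S, l ≠ k := fun l hl h => hk (h ▸ hS l hl)
  have e1 : ∀ v : Fin n → ℝ, (∑ l ∈ S, c l * ek l v) * (starRingEnd ℂ) (ek k v) =
      ∑ l ∈ S, c l * (ek l v * (starRingEnd ℂ) (ek k v)) := by
    intro v
    rw [Finset.sum_mul]
    apply Finset.sum_congr rfl
    intro l _
    ring
  simp only [e1]
  have hcont : ∀ l, Continuous (fun v : Fin n → ℝ => ek l v * (starRingEnd ℂ) (ek k v)) := by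
    intro l
    unfold ek
    fun_prop
  have hnorm : ∀ l (v : Fin n → ℝ), ‖ek l v‖ = 1 := by
    intro l v
    unfold ek
    have e : Real.pi * I * ((∑ j, (l j : ℝ) * v j : ℝ) : ℂ) =
        ((Real.pi * ∑ j, (l j : ℝ) * v j : ℝ) : ℂ) * I := by push_cast; ring
    rw [e, Complex.norm_exp_ofReal_mul_I]
  rw [integral_finset_sum]
  · apply Finset.sum_eq_zero
    intro l hl
    rw [integral_const_mul, int_ek l k (hkS l hl), mul_zero]
  · intro l _
    apply Integrable.const_mul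
    apply Integrable.of_bound (hcont l).aestronglyMeasurable 1
    refine ae_of_all _ fun v => ?_
    rw [norm_mul, RCLike.norm_conj, hnorm, hnorm, mul_one]

lemma isLam_mono (Λ : Set (Fin n → ℤ)) (q δ : ℝ) (K L : ℝ≥0) (hKL : K ≤ L)
    (h : IsLam Λ q δ K) : IsLam Λ q δ L := by
  intro N S c hN hS hd
  refine (h N S c hN hS hd).trans ?_
  apply ENNReal.ofReal_le_ofReal
  have : (K : ℝ) ≤ L := by exact_mod_cast hKL
  gcongr

lemma half_sq (x : ℝ≥0∞) : (x ^ (1 / 2 : ℝ)) ^ 2 = x := by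
  rw [← ENNReal.rpow_natCast, ← ENNReal.rpow_mul]
  norm_num

lemma norm_trig (hP : ParsStm) (S : Finset (Fin n → ℤ)) (c : (Fin n → ℤ) → ℂ) :
    (∫⁻ v in CB n, ‖trig S c v‖ₑ ^ 2) ^ (1 / 2 : ℝ) = ((2 : ℝ≥0∞) ^ n) ^ (1 / 2 : ℝ) * l2 S c := by
  rw [hP n S c, ENNReal.mul_rpow_of_nonneg _ _ (by norm_num)]
  rfl

/-- **necessity, frequencies in all variables** -/
theorem part3 (hP : ParsStm) (h3 : Cv3Stm) (n : ℕ) (q : ℝ) (hn : 1 ≤ n) (hq2 : 2 < q)
    (hκ : 0 ≤ n * (q / 2 - 1) - 1) : ∃ C : ℝ≥0, ∀ (Λ : Set (Fin n → ℤ)) (B : ℝ≥0),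
    (∀ f : (Fin n → ℝ) → ℂ, Measurable f → MemLp f 2 (volume.restrict (Cc n)) → Freq Λ f →
      eLpNorm (Pool.Agent.H728R3.SR.ext f) (ENNReal.ofReal q) volume ≤
        B * eLpNorm f 2 (volume.restrict (Cc n))) →
    IsLam Λ q ((n + 4) * (n * (q / 2 - 1) - 1) / q) (C * (B + 1)) := by
  have hq0 : 0 < q := by linarith
  obtain ⟨C3, hC3⟩ := h3 n q 0 hn hq2.le le_rfl (by rw [add_zero]; exact hκ)
  have h2n : ((2 : ℝ≥0∞) ^ n) ^ (1 / 2 : ℝ) ≠ ∞ :=
    ENNReal.rpow_ne_top_of_nonneg (by norm_num) (ENNReal.pow_ne_top (by norm_num))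
  set D : ℝ≥0 := (((2 : ℝ≥0∞) ^ n) ^ (1 / 2 : ℝ)).toNNReal with hD
  refine ⟨C3 * (D + 1), ?_⟩
  intro Λ B hC
  have hLam := hC3 Λ (B * D) (by
    intro S c hS
    have hf2 : ∫⁻ v in CB n, ‖trig S c v‖ₑ ^ 2 ≠ ∞ := by
      rw [hP n S c, ← l2_sq]
      exact ENNReal.mul_ne_top (ENNReal.pow_ne_top (by norm_num))
        (ENNReal.pow_ne_top (l2_ne_top S c))
    have h4 := hC (trig S c) (trig_meas S c) (by
      rw [← CB_Cc]
      exact memLp_of _ (trig_meas S c) hf2) ((freq_iff Λ _).mpr (spec_trig Λ S c hS))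
    rw [eLp_le_iff _ _ _ hq0, l2norm_eq, norm_trig hP S c] at h4
    have hmeas : Measurable (fun z : (Fin n → ℝ) × ℝ =>
        ‖Pool.Agent.H728R3.SR.ext (trig S c) z‖ₑ ^ q) :=
      (Pool.Agent.W771.MD.ext_meas n _ (trig_meas S c)).enorm.pow_const _
    rw [Measure.volume_eq_prod, lintegral_prod_symm _ hmeas.aemeasurable] at h4
    simp only [ext_em] at h4
    calc ∫⁻ t in Ici (1 : ℝ), ENNReal.ofReal (t ^ (-0 : ℝ)) *
          ∫⁻ y : Fin n → ℝ, ‖TT t S c y‖ₑ ^ q =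
        ∫⁻ t in Ici (1 : ℝ), ∫⁻ y : Fin n → ℝ, ‖TT t S c y‖ₑ ^ q := by
          simp
      _ ≤ ∫⁻ t, ∫⁻ y : Fin n → ℝ, ‖TT t S c y‖ₑ ^ q := setLIntegral_le_lintegral _ _
      _ ≤ _ := by
          refine h4.trans (le_of_eq ?_)
          congr 1
          push_cast
          rw [hD, ENNReal.coe_toNNReal h2n]
          ring)
  rw [add_zero, ← isLam_iff _ _ _ hq0] at hLam
  apply isLam_mono _ _ _ _ _ _ hLam
  calc C3 * (B * D + 1) ≤ C3 * ((B + 1) * (D + 1)) := by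
        gcongr
        calc B * D + 1 ≤ B * D + 1 + (B + D) := le_self_add
          _ = (B + 1) * (D + 1) := by ring
    _ = _ := by ring

/-- a function which does not depend on the first variable -/
lemma ext_tail (g : (Fin m → ℝ) → ℂ) (x : ℝ) (y : Fin m → ℝ) (t : ℝ) :
    Pool.Agent.H728R3.SR.ext (fun ξ : Fin (m + 1) → ℝ => g (fun j => ξ j.succ)) (Fin.cons x y, t) =
      ph1 t x * ∫ v in CB m, g v * em y t v := by
  rw [Pool.Agent.W771.MD.ext_cons]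
  have e1 : ∀ w : ℝ × (Fin m → ℝ), Pool.Agent.W771.MD.hh
      (fun ξ : Fin (m + 1) → ℝ => g (fun j => ξ j.succ)) x y t w =
      ((Icc (-1 : ℝ) 1).indicator (fun u => qe x t u) w.1) * (g w.2 * em y t w.2) := by
    intro w
    unfold Pool.Agent.W771.MD.hh
    by_cases hw : w.1 ∈ Icc (-1 : ℝ) 1
    · rw [indicator_of_mem hw, indicator_of_mem hw]
      simp only [Fin.cons_succ]
      rw [show Pool.Agent.W771.MD.qe x t w.1 = qe x t w.1 from rfl,
        show Pool.Agent.W771.MD.em y t w.2 = em y t w.2 from rfl]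
      ring
    · rw [indicator_of_notMem hw, indicator_of_notMem hw]
      ring
  simp only [e1]
  rw [integral_prod_mul (μ := (volume : Measure ℝ)) (ν := Pool.Agent.W771.MD.nuC m)
    ((Icc (-1 : ℝ) 1).indicator (fun u => qe x t u)) (fun v => g v * em y t v)]
  congr 1
  unfold ph1
  rw [integral_indicator measurableSet_Icc, integral_Icc_eq_integral_Ioc,
    integral_Ioc_eq_integral_Ioo, integral_Ico_eq_integral_Ioo]

/-- **necessity, one rough variable** -/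
theorem part4 (hP : ParsStm) (h1 : Cv1Stm) (h3 : Cv3Stm) (m : ℕ) (q : ℝ) (hm : 1 ≤ m)
    (hq2' : 2 < q) (hκ : 0 ≤ (m + 1) * (q / 2 - 1) - 1) : ∃ C : ℝ≥0,
    ∀ (Λ : Set (Fin m → ℤ)) (B : ℝ≥0),
    (∀ f : (Fin (m + 1) → ℝ) → ℂ, Measurable f →
      (∀ u : ℝ, Freq Λ (fun v => f (Fin.cons u v))) → ∀ A : ℝ≥0,
      (∀ u : ℝ, ∫⁻ v in Cc m, ‖f (Fin.cons u v)‖ₑ ^ 2 ≤ (A : ℝ≥0∞) ^ 2) →
      eLpNorm (Pool.Agent.H728R3.SR.ext f) (ENNReal.ofReal q) volume ≤ B * A) →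
    IsLam Λ q ((m + 4) * ((m + 1) * (q / 2 - 1) - 1) / q) (C * (B + 1)) := by
  have hq2 : 2 ≤ q := hq2'.le
  have hq0 : 0 < q := by linarith
  have hκe : (m : ℝ) * (q / 2 - 1) + (q / 2 - 1) - 1 = (m + 1) * (q / 2 - 1) - 1 := by ring
  obtain ⟨C3, hC3⟩ := h3 m q (q / 2 - 1) hm hq2 (by linarith) (by rw [hκe]; exact hκ)
  obtain ⟨c, hc0, hc⟩ := h1.2.2 q hq2
  -- the estimate
  have h2m : ((2 : ℝ≥0∞) ^ m) ^ (1 / 2 : ℝ) ≠ ∞ :=
    ENNReal.rpow_ne_top_of_nonneg (by norm_num) (ENNReal.pow_ne_top (by norm_num))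
  set c1 : ℝ≥0∞ := (ENNReal.ofReal c)⁻¹ with hc1
  have hce0 : ENNReal.ofReal c ≠ 0 := by
    rw [Ne, ENNReal.ofReal_eq_zero, not_le]
    exact hc0
  have hc1t : c1 ^ (1 / q) ≠ ∞ :=
    ENNReal.rpow_ne_top_of_nonneg (by positivity) (ENNReal.inv_ne_top.mpr hce0)
  set D : ℝ≥0 := (((2 : ℝ≥0∞) ^ m) ^ (1 / 2 : ℝ)).toNNReal * (c1 ^ (1 / q)).toNNReal with hD
  refine ⟨C3 * (D + 1), ?_⟩
  intro Λ C hC
  set B : ℝ≥0 := C * (((2 : ℝ≥0∞) ^ m) ^ (1 / 2 : ℝ)).toNNReal * (c1 ^ (1 / q)).toNNReal with hB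
  have hLam := hC3 Λ B (by
    intro S c' hS
    set A : ℝ≥0 := ((((2 : ℝ≥0∞) ^ m) ^ (1 / 2 : ℝ)) * l2 S c').toNNReal with hA
    have hAt : (((2 : ℝ≥0∞) ^ m) ^ (1 / 2 : ℝ)) * l2 S c' ≠ ∞ :=
      ENNReal.mul_ne_top h2m (l2_ne_top S c')
    have hAe : (A : ℝ≥0∞) = (((2 : ℝ≥0∞) ^ m) ^ (1 / 2 : ℝ)) * l2 S c' :=
      ENNReal.coe_toNNReal hAt
    have hfm : Measurable (fun ξ : Fin (m + 1) → ℝ => trig S c' (fun j => ξ j.succ)) := by
      apply (trig_meas S c').comp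
      exact measurable_pi_iff.mpr fun j => measurable_pi_apply _
    have hcons : ∀ u : ℝ, (fun v : Fin m → ℝ => (fun ξ : Fin (m + 1) → ℝ =>
        trig S c' (fun j => ξ j.succ)) (Fin.cons u v)) = trig S c' := by
      intro u
      ext v
      simp only [Fin.cons_succ]
    have h4 := hC (fun ξ => trig S c' (fun j => ξ j.succ)) hfm
      (fun u => by
        rw [hcons u]
        exact (freq_iff Λ _).mpr (spec_trig Λ S c' hS)) A (fun u => by
        have e0 : ∀ v : Fin m → ℝ, ‖trig S c' (fun j => (Fin.cons u v : Fin (m + 1) → ℝ) j.succ)‖ₑ ^ 2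
            = ‖trig S c' v‖ₑ ^ 2 := by
          intro v
          simp only [Fin.cons_succ]
        simp only [e0]
        rw [← CB_Cc, hP m S c', hAe, mul_pow, ← l2_sq, half_sq])
    rw [eLp_le_iff _ _ _ hq0] at h4
    have hmeas : Measurable (fun z : (Fin (m + 1) → ℝ) × ℝ =>
        ‖Pool.Agent.H728R3.SR.ext (fun ξ : Fin (m + 1) → ℝ => trig S c' (fun j => ξ j.succ)) z‖ₑ
          ^ q) :=
      (Pool.Agent.W771.MD.ext_meas (m + 1) _ hfm).enorm.pow_const _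
    rw [Pool.Agent.W771.MD.lint_cons _ hmeas] at h4
    simp only [ext_tail, enorm_mul, ENNReal.mul_rpow_of_nonneg _ _ hq0.le] at h4
    have hTm : ∀ t, Measurable (fun y : Fin m → ℝ => ‖∫ v in CB m, trig S c' v * em y t v‖ₑ ^ q) :=
      fun t => (tr_meas' _ (trig_meas S c') t).enorm.pow_const q
    have hcc : ENNReal.ofReal c * c1 = 1 := ENNReal.mul_inv_cancel hce0 ENNReal.ofReal_ne_top
    -- lower bound
    have h5 : ∫⁻ t in Ici (1 : ℝ), ENNReal.ofReal (t ^ (-(q / 2 - 1))) *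
        ∫⁻ y : Fin m → ℝ, ‖TT t S c' y‖ₑ ^ q ≤
        c1 * ∫⁻ t : ℝ, ∫⁻ x : ℝ, ∫⁻ y : Fin m → ℝ, ‖ph1 t x‖ₑ ^ q *
          ‖∫ v in CB m, trig S c' v * em y t v‖ₑ ^ q := by
      rw [← lintegral_const_mul' _ _ (ENNReal.inv_ne_top.mpr hce0)]
      refine le_trans ?_ (setLIntegral_le_lintegral (Ici (1 : ℝ)) _)
      apply setLIntegral_mono' measurableSet_Ici
      intro t ht
      have h6 := hc t ht
      have h7 : ∫⁻ x : ℝ, ∫⁻ y : Fin m → ℝ, ‖ph1 t x‖ₑ ^ q *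
          ‖∫ v in CB m, trig S c' v * em y t v‖ₑ ^ q = (∫⁻ x : ℝ, ‖ph1 t x‖ₑ ^ q) *
          ∫⁻ y : Fin m → ℝ, ‖∫ v in CB m, trig S c' v * em y t v‖ₑ ^ q := by
        have e1 : ∀ x : ℝ, ∫⁻ y : Fin m → ℝ, ‖ph1 t x‖ₑ ^ q *
            ‖∫ v in CB m, trig S c' v * em y t v‖ₑ ^ q = ‖ph1 t x‖ₑ ^ q *
            ∫⁻ y : Fin m → ℝ, ‖∫ v in CB m, trig S c' v * em y t v‖ₑ ^ q := fun x =>
          lintegral_const_mul _ (hTm t)
        simp only [e1]
        rw [lintegral_mul_const _]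
        have hph : Measurable (fun x : ℝ => ph1 t x) := by
          unfold ph1
          apply StronglyMeasurable.measurable
          apply StronglyMeasurable.integral_prod_right' (f := fun w : ℝ × ℝ => qe w.1 t w.2)
          apply Measurable.stronglyMeasurable
          apply Continuous.measurable
          unfold qe
          fun_prop
        exact hph.enorm.pow_const q
      rw [h7]
      have h8 : ENNReal.ofReal (t ^ (-(q / 2 - 1))) ≤ c1 * ∫⁻ x : ℝ, ‖ph1 t x‖ₑ ^ q := by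
        have e2 : ENNReal.ofReal (t ^ (-(q / 2 - 1))) = c1 * ENNReal.ofReal (c * t ^ (1 - q / 2)) := by
          rw [ENNReal.ofReal_mul hc0.le, ← mul_assoc, mul_comm c1, hcc, one_mul]
          congr 2
          ring
        rw [e2]
        gcongr
        exact h6.trans (setLIntegral_le_lintegral _ _)
      calc ENNReal.ofReal (t ^ (-(q / 2 - 1))) * ∫⁻ y : Fin m → ℝ, ‖TT t S c' y‖ₑ ^ q ≤
          (c1 * ∫⁻ x : ℝ, ‖ph1 t x‖ₑ ^ q) * ∫⁻ y : Fin m → ℝ, ‖TT t S c' y‖ₑ ^ q := by gcongr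
        _ = _ := by
            rw [mul_assoc]
            rfl
    refine h5.trans ?_
    refine (mul_le_mul' le_rfl h4).trans (le_of_eq ?_)
    rw [hAe, hB]
    push_cast
    rw [ENNReal.coe_toNNReal h2m, ENNReal.coe_toNNReal hc1t]
    have e3 : (c1 ^ (1 / q)) ^ q = c1 := by
      rw [← ENNReal.rpow_mul, one_div_mul_cancel hq0.ne', ENNReal.rpow_one]
    calc c1 * ((C : ℝ≥0∞) ^ q * (((2 : ℝ≥0∞) ^ m) ^ (1 / 2 : ℝ) * l2 S c') ^ q) =
        (c1 ^ (1 / q)) ^ q * (C * (((2 : ℝ≥0∞) ^ m) ^ (1 / 2 : ℝ) * l2 S c')) ^ q := by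
          rw [e3, ENNReal.mul_rpow_of_nonneg (C : ℝ≥0∞) _ hq0.le]
      _ = (c1 ^ (1 / q) * (C * (((2 : ℝ≥0∞) ^ m) ^ (1 / 2 : ℝ) * l2 S c'))) ^ q :=
          (ENNReal.mul_rpow_of_nonneg _ _ hq0.le).symm
      _ = _ := by
          congr 1
          ring)
  rw [hκe, ← isLam_iff _ _ _ hq0] at hLam
  apply isLam_mono _ _ _ _ _ _ hLam
  have hBD : B = C * D := by
    rw [hB, hD]
    ring
  rw [hBD]
  calc C3 * (C * D + 1) ≤ C3 * ((C + 1) * (D + 1)) := by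
        gcongr
        calc C * D + 1 ≤ C * D + 1 + (C + D) := le_self_add
          _ = (C + 1) * (D + 1) := by ring
    _ = _ := by ring

end Pool.Agent.W786.Ls
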