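import Mathlib
import Pool.Agent.W786.Ls.Sl6
import Pool.Agent.W786.Ls.Gd2
import Pool.Agent.W839.LS.Gau1
import Pool.Agent.W131.LS.Gau2
import Pool.Agent.W22.LS.Trap
import Pool.Agent.W22.LS.Main
import Pool.Agent.W240.LS.Lay
import Pool.Agent.W597.LS.APX
import Pool.Agent.W338.LS.Cv1
import Pool.Agent.W578.LS.CV2
import Pool.Agent.W930.LS.Cv3
set_option autoImplicit false

/-! Project LS: assembly of the parts. -/

namespace Pool.Agent.W786.Ls

/-- the Gaussian weighted estimate -/
theorem gauAll_holds : GauAll :=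
  gauAll Pool.Agent.W839.LS.gau1 Pool.Agent.W131.LS.gau2 gau3All

/-- the slice estimate -/
theorem slice_holds : SliceStm :=
  slice gauAll_holds Pool.Agent.W22.LS.trap Pool.Agent.W22.LS.main Pool.Agent.W240.LS.lay
    Pool.Agent.W597.LS.pars

/-- the converse estimate -/
theorem cv3_holds : Cv3Stm :=
  Pool.Agent.W930.LS.cv3 (Pool.Agent.W578.LS.cv2 Pool.Agent.W338.LS.cv1)

end Pool.Agent.W786.Ls
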